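import Pool.Agent.HamWt.Build

set_option autoImplicit false
set_option linter.unusedSectionVars false

namespace Pool.Agent.HamWt

open Finset SimpleGraph

/-- The family L of closed walks consists of cycles and covers every edge e exactly f e times. -/
def Covers {V : Type} [DecidableEq V] (G : SimpleGraph V) (f : G.edgeSet → ℕ)
    (L : List (Σ u : V, G.Walk u u)) : Prop :=
  (∀ C ∈ L, C.2.IsCycle) ∧
    ∀ e : G.edgeSet, L.countP (fun C => decide ((e : Sym2 V) ∈ C.2.edges)) = f e

/-- A Hamiltonian weight: a (1,2)-weight which is covered by some family of cycles and for which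
every such family consists of exactly two cycles, both Hamiltonian. -/
def HamiltonianWeight {V : Type} [DecidableEq V] (G : SimpleGraph V) (f : G.edgeSet → ℕ) : Prop :=
  (∀ e, f e = 1 ∨ f e = 2) ∧ (∃ L, Covers G f L) ∧
    ∀ L, Covers G f L → L.length = 2 ∧ ∀ C ∈ L, C.2.IsHamiltonianCycle

section Chords

variable {V : Type} [Fintype V] {G : SimpleGraph V} {u : V}

/-- The chords of the closed walk C: pairs i < j of positions of C (numbered from 0 to
card V - 1) whose vertices are joined by an edge of G that is not an edge of C. -/
abbrev Chords (C : G.Walk u u) : Type :=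
  {p : Fin (Fintype.card V) × Fin (Fintype.card V) // p.1 < p.2 ∧
    G.Adj (C.getVert p.1) (C.getVert p.2) ∧ s(C.getVert p.1, C.getVert p.2) ∉ C.edges}

noncomputable instance (C : G.Walk u u) : Fintype (Chords C) := by
  classical
  unfold Chords
  infer_instance

/-- The chords p and q cross, the first end of p coming first:
p.1 < q.1 < p.2 < q.2 along the closed walk. -/
def Cross {C : G.Walk u u} (p q : Chords C) : Prop :=
  p.1.1 < q.1.1 ∧ q.1.1 < p.1.2 ∧ p.1.2 < q.1.2

instance {C : G.Walk u u} (p q : Chords C) : Decidable (Cross p q) := by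
  unfold Cross
  infer_instance

/-- The interlace matrix over the field with two elements of the chords, with the diagonal entries
at the chords in S equal to one and the others equal to zero. -/
def interlace (C : G.Walk u u) (S : Finset (Chords C)) :
    Matrix (Chords C) (Chords C) (ZMod 2) :=
  fun p q => if p = q ∧ p ∈ S ∨ Cross p q ∨ Cross q p then 1 else 0

lemma not_cross {C : G.Walk u u} {p q : Chords C} (h : Cross p q) : ¬ Cross q p := by
  intro h'
  unfold Cross at h h'
  exact absurd (h.1.trans h'.1) (lt_irrefl _)

/-- The crossing pairs. -/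
noncomputable def crossSet (C : G.Walk u u) : Finset (Chords C × Chords C) :=
  univ.filter (fun e => Cross e.1 e.2)

lemma crossSet_anti (C : G.Walk u u) (a b : Chords C) (h : (a, b) ∈ crossSet C) :
    (b, a) ∉ crossSet C := by
  unfold crossSet at *
  rw [mem_filter] at *
  rintro ⟨_, h'⟩
  exact not_cross h.2 h'

lemma interlace_eq (C : G.Walk u u) (S : Finset (Chords C)) :
    interlace C S = addD (ofE (crossSet C)) S := by
  ext p q
  unfold interlace addD ofE crossSet
  simp only [mem_filter, mem_univ, true_and]
  by_cases h : p = q
  · subst h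
    have h1 : ¬ (Cross p p ∨ Cross p p) := by
      rw [or_self]
      intro h; exact not_cross h h
    by_cases h2 : p ∈ S
    · rw [if_pos (Or.inl ⟨rfl, h2⟩), if_neg h1, if_pos ⟨rfl, h2⟩, zero_add]
    · rw [if_neg, if_neg h1, if_neg, zero_add]
      · rintro ⟨_, h3⟩; exact h2 h3
      · rintro (h3 | h3)
        · exact h2 h3.2
        · exact h1 h3
  · by_cases h1 : Cross p q ∨ Cross q p
    · rw [if_pos (Or.inr h1), if_pos h1, if_neg (fun h3 => h h3.1), add_zero]
    · rw [if_neg, if_neg h1, if_neg (fun h3 => h h3.1), add_zero]
      rintro (h3 | h3)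
      · exact h h3.1
      · exact h1 h3

end Chords

variable {V : Type} [Fintype V] [DecidableEq V]

/-- The main consequence of a Hamiltonian weight whose weight one edges form a Hamiltonian
cycle. -/
theorem main_facts (G : SimpleGraph V) [DecidableRel G.Adj] (hG : G.IsRegularOfDegree 3)
    (f : G.edgeSet → ℕ) (hf : HamiltonianWeight G f) (u : V) (C : G.Walk u u)
    (hC : C.IsHamiltonianCycle) (hCf : ∀ e : G.edgeSet, f e = 1 ↔ (e : Sym2 V) ∈ C.edges) :
    Nonempty (Chords C) ∧ 2 * Fintype.card (Chords C) = Fintype.card V ∧
      AllConst (ofE (crossSet C)) := by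
  classical
  obtain ⟨W, hw, h1, h2, h3, h4, h5, hedge, htau⟩ := exists_word G C hG hC
  have hpt : ∀ p : Chords C, W.tau (W.w p.1.1) = W.w p.1.2 := by
    intro p
    have := (htau _ _).mp p.2.2
    rw [hw]
    exact this.symm
  -- the equivalence
  let e : W.Ch ≃ Chords C :=
    { toFun := fun x => ⟨(⟨W.pos x, W.pos_lt _⟩, ⟨W.pos (W.tau x), W.pos_lt _⟩), by
        refine ⟨x.2, ?_⟩
        simp only
        rw [← hw, W.w_pos, W.w_pos]
        exact (htau _ _).mpr rfl⟩
      invFun := fun p => ⟨W.w p.1.1, by
        rw [hpt p, W.pos_w _ p.1.1.2, W.pos_w _ p.1.2.2]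
        exact p.2.1⟩
      left_inv := by
        intro x
        apply Subtype.ext
        exact W.w_pos _
      right_inv := by
        intro p
        apply Subtype.ext
        apply Prod.ext
        · apply Fin.ext
          exact W.pos_w _ p.1.1.2
        · apply Fin.ext
          simp only
          rw [hpt p]
          exact W.pos_w _ p.1.2.2 }
  have hcard : 2 * Fintype.card (Chords C) = Fintype.card V := by
    rw [← Fintype.card_congr e, W.card_Ch]
  refine ⟨?_, hcard, ?_⟩
  · rw [← Fintype.card_pos_iff]
    have : 0 < Fintype.card V := Fintype.card_pos_iff.mpr ⟨u⟩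
    omega
  · apply allConst_equiv e W.mat
    · intro i j
      unfold Word.mat ofE crossSet
      simp only [mem_filter, mem_univ, true_and]
      rfl
    · apply W.allConst
      intro m cout hne hgood
      obtain ⟨L, hL1, hL2, hL3, hL4⟩ := local_cover G W.succ W.tau h1 h2 W.tau_tau h3 h4 h5 cout
        hne hgood
      have hcov : Covers G f L := by
        refine ⟨hL1, ?_⟩
        rintro ⟨ed, hed⟩
        induction ed using Sym2.inductionOn with
        | _ x y =>
          have hadj : G.Adj x y := hed
          by_cases hin : s(x, y) ∈ C.edges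
          · have hf1 : f ⟨s(x, y), hed⟩ = 1 := (hCf _).mpr hin
            rw [hf1]
            rcases (hedge x y).mp hin with h | h
            · rw [← hL2 x, ← h]
            · rw [← hL2 y, ← h]
              simp only [Sym2.eq_swap (a := x) (b := y)]
          · have hf2 : f ⟨s(x, y), hed⟩ = 2 := by
              rcases hf.1 ⟨s(x, y), hed⟩ with h | h
              · exact absurd ((hCf _).mp h) hin
              · exact h
            rw [hf2]
            have h := (htau x y).mp ⟨hadj, hin⟩
            rw [← hL3 x, ← h]
      have := (hf.2.2 L hcov).1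
      omega

end Pool.Agent.HamWt
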