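import Pool.Agent.HamWt.Mod16

set_option autoImplicit false
set_option linter.unusedSectionVars false

namespace Pool.Agent.HamWt

open Matrix Finset Module

variable {ι : Type*} [Fintype ι] [DecidableEq ι]

/-- The local factor. -/
def lf (a b : ZMod 2) : ℤ := (if b = 0 then 1 else 0) + -2 * (if a = 0 then 1 else 0)

lemma signed_eq {A : Matrix ι ι (ZMod 2)} (hA : A.IsSymm) (h0 : ∀ i, A i i = 0) :
    ∑ S : Finset ι, (-1 : ℤ) ^ (#S) * gg (addD A S) =
      ∑ y : ι → ZMod 2, ∏ i, lf ((A *ᵥ y) i) (y i) := by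
  classical
  have h1 := expand (univ : Finset ι) A hA
  rw [powerset_univ] at h1
  rw [h1]
  have h2 : ∀ U : Finset ι, (2 : ℤ) ^ (#U) * gg (iso A (univ \ U)) =
      ∑ y : ι → ZMod 2, (∏ i ∈ U, (-2 * (if (A *ᵥ y) i = 0 then (1 : ℤ) else 0))) *
        ∏ i ∈ Uᶜ, (if y i = 0 then (1 : ℤ) else 0) := by
    intro U
    rw [← compl_eq_univ_sdiff, gg_iso hA h0]
    unfold kc
    rw [card_filter]
    push_cast
    rw [mul_sum, mul_sum]
    apply sum_congr rfl
    intro y _
    rw [prod_mul_distrib, prod_const, prod_ite_zero, prod_ite_zero]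
    simp only [prod_const_one]
    have h3 : (∀ i, (i ∉ U → y i = 0) ∧ (i ∈ U → (A *ᵥ y) i = 0)) ↔
        ((∀ i ∈ U, (A *ᵥ y) i = 0) ∧ ∀ i ∈ Uᶜ, y i = 0) := by
      constructor
      · intro h
        refine ⟨fun i hi => (h i).2 hi, fun i hi => (h i).1 (mem_compl.mp hi)⟩
      · rintro ⟨h, h'⟩ i
        exact ⟨fun hi => h' i (mem_compl.mpr hi), fun hi => h i hi⟩
    have h4 : ((-2 : ℤ)) ^ (#U) = 2 ^ (#U) * (-1) ^ (#U) := by
      rw [← mul_pow]; norm_num
    rw [h4]
    by_cases ha : ∀ i ∈ U, (A *ᵥ y) i = 0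
    · by_cases hb : ∀ i ∈ Uᶜ, y i = 0
      · rw [if_pos (h3.mpr ⟨ha, hb⟩), if_pos ha, if_pos hb]
        ring
      · rw [if_neg (fun h => hb (h3.mp h).2), if_neg hb]
        ring
    · rw [if_neg (fun h => ha (h3.mp h).1), if_neg ha]
      ring
  simp only [h2]
  rw [sum_comm]
  apply sum_congr rfl
  intro y _
  rw [← Fintype.prod_add]
  apply prod_congr rfl
  intro i _
  unfold lf
  ring

/-- The symplectic sign of two pairs. -/
def psi (p q : ZMod 2 × ZMod 2) : ℤ := sg (p.1 * q.2 + q.1 * p.2)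

/-- The three nonzero pairs. -/
def em (k : Fin 3) : ZMod 2 × ZMod 2 := if k = 0 then (1, 0) else if k = 1 then (0, 1) else (1, 1)

lemma em_inj : Function.Injective em := by decide

lemma em_ne (k : Fin 3) : em k ≠ 0 := by revert k; decide

lemma em_surj (p : ZMod 2 × ZMod 2) (hp : p ≠ 0) : ∃ k, em k = p := by
  revert p; decide

lemma psi_em (j k : Fin 3) : psi (em j) (em k) = if j = k then 1 else -1 := by
  revert j k; decide

/-- Matrix given by an orientation. -/
def ofE (E : Finset (ι × ι)) : Matrix ι ι (ZMod 2) := fun a b => if (a, b) ∈ E ∨ (b, a) ∈ E then 1 else 0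

lemma prod_psi (E : Finset (ι × ι)) (hE : ∀ a b, (a, b) ∈ E → (b, a) ∉ E) (x y : ι → ZMod 2) :
    ∏ e ∈ E, psi (x e.1, y e.1) (x e.2, y e.2) = ∏ i, sg (x i * ((ofE E *ᵥ y) i)) := by
  classical
  unfold psi
  rw [sg_sum, sg_sum]
  congr 1
  have h1 : ∀ i, x i * ((ofE E *ᵥ y) i) =
      ∑ j, ((if (i, j) ∈ E then x i * y j else 0) + (if (j, i) ∈ E then x i * y j else 0)) := by
    intro i
    simp only [mulVec, dotProduct, mul_sum]
    apply sum_congr rfl
    intro j _
    unfold ofE
    by_cases h : (i, j) ∈ E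
    · rw [if_pos (Or.inl h), if_pos h, if_neg (hE _ _ h)]; ring
    · by_cases h' : (j, i) ∈ E
      · rw [if_pos (Or.inr h'), if_neg h, if_pos h']; ring
      · rw [if_neg (by tauto), if_neg h, if_neg h']; ring
  simp only [h1]
  have h2 : ∀ f : ι → ι → ZMod 2, ∑ i, ∑ j, (if (i, j) ∈ E then f i j else 0) =
      ∑ e ∈ E, f e.1 e.2 := by
    intro f
    rw [← sum_product' (s := univ) (t := univ) (f := fun i j => if (i, j) ∈ E then f i j else 0)]
    rw [univ_product_univ, ← sum_filter]
    congr 1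
    ext e
    simp
  simp only [sum_add_distrib]
  rw [h2 (fun i j => x i * y j), sum_comm (f := fun i j => if (j, i) ∈ E then x i * y j else 0),
    h2 (fun i j => x j * y i)]

lemma sum_coord (a b : ZMod 2) :
    ∑ x : ZMod 2, (if (x, b) = (0 : ZMod 2 × ZMod 2) then (0 : ℤ) else 1) * sg (x * a) =
      -lf a b := by
  revert a b; decide

lemma color_eq (E : Finset (ι × ι)) (hE : ∀ a b, (a, b) ∈ E → (b, a) ∉ E) :
    ∑ c : ι → Fin 3, ∏ e ∈ E, (if c e.1 = c e.2 then (1 : ℤ) else -1) =
      (-1) ^ Fintype.card ι * ∑ y : ι → ZMod 2, ∏ i, lf ((ofE E *ᵥ y) i) (y i) := by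
  classical
  have h1 : ∑ c : ι → Fin 3, ∏ e ∈ E, (if c e.1 = c e.2 then (1 : ℤ) else -1) =
      ∑ p : ι → ZMod 2 × ZMod 2, (∏ i, (if p i = 0 then (0 : ℤ) else 1)) *
        ∏ e ∈ E, psi (p e.1) (p e.2) := by
    have h2 : ∀ p : ι → ZMod 2 × ZMod 2, (∏ i, (if p i = 0 then (0 : ℤ) else 1)) =
        if (∀ i, p i ≠ 0) then 1 else 0 := by
      intro p
      by_cases h : ∀ i, p i ≠ 0
      · rw [if_pos h]
        apply prod_eq_one
        intro i _
        rw [if_neg (h i)]
      · rw [if_neg h]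
        push Not at h
        obtain ⟨i, hi⟩ := h
        apply prod_eq_zero (mem_univ i)
        rw [if_pos hi]
    simp only [h2, ite_mul, one_mul, zero_mul]
    rw [← sum_filter]
    apply sum_bij (fun c _ => fun i => em (c i))
    · intro c _
      rw [mem_filter]
      exact ⟨mem_univ _, fun i => em_ne _⟩
    · intro c _ d _ h
      ext i
      rw [em_inj (congrFun h i)]
    · intro p hp
      rw [mem_filter] at hp
      choose c hc using fun i => em_surj (p i) (hp.2 i)
      exact ⟨c, mem_univ _, funext hc⟩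
    · intro c _
      apply prod_congr rfl
      intro e _
      rw [psi_em]
  rw [h1]
  rw [← (Equiv.arrowProdEquivProdArrow ι (fun _ => ZMod 2) (fun _ => ZMod 2)).symm.sum_comp]
  rw [Fintype.sum_prod_type, sum_comm, mul_sum]
  apply sum_congr rfl
  intro y _
  have h3 : ∀ x : ι → ZMod 2,
      (∏ i, (if ((Equiv.arrowProdEquivProdArrow ι (fun _ => ZMod 2) (fun _ => ZMod 2)).symm (x, y)) i
        = 0 then (0 : ℤ) else 1)) *
        ∏ e ∈ E, psi (((Equiv.arrowProdEquivProdArrow ι (fun _ => ZMod 2)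
          (fun _ => ZMod 2)).symm (x, y)) e.1)
          (((Equiv.arrowProdEquivProdArrow ι (fun _ => ZMod 2)
          (fun _ => ZMod 2)).symm (x, y)) e.2) =
      ∏ i, ((if (x i, y i) = (0 : ZMod 2 × ZMod 2) then (0 : ℤ) else 1) *
        sg (x i * ((ofE E *ᵥ y) i))) := by
    intro x
    rw [prod_mul_distrib, ← prod_psi E hE x y]
    rfl
  simp only [h3]
  have h4 := Finset.prod_univ_sum (fun _ : ι => (univ : Finset (ZMod 2)))
    (fun i a => (if (a, y i) = (0 : ZMod 2 × ZMod 2) then (0 : ℤ) else 1) *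
        sg (a * ((ofE E *ᵥ y) i)))
  rw [Fintype.piFinset_univ] at h4
  rw [← h4]
  simp only [sum_coord]
  rw [prod_neg, card_univ]

/-- The signed number of 3-colourings. -/
theorem color_value [Nonempty ι] (E : Finset (ι × ι)) (hE : ∀ a b, (a, b) ∈ E → (b, a) ∉ E)
    (hc : AllConst (ofE E)) :
    ∑ c : ι → Fin 3, ∏ e ∈ E, (if c e.1 = c e.2 then (1 : ℤ) else -1) =
      3 * (-1) ^ (Fintype.card ι + 1) := by
  have hA : (ofE E).IsSymm := by
    ext a b
    simp only [ofE, transpose_apply, or_comm]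
  have h0 : ∀ i, ofE E i i = 0 := by
    intro i
    unfold ofE
    rw [if_neg]
    rw [or_self]
    intro h
    exact hE i i h h
  rw [color_eq E hE, ← signed_eq hA h0, value_neg_two hA h0 hc]
  ring

/-- The number of adjacent pairs is the size of an orientation. -/
lemma card_pairs (E : Finset (ι × ι)) (hE : ∀ a b, (a, b) ∈ E → (b, a) ∉ E) [DecidablePred
    (fun U : Finset ι => ∃ a ∈ U, ∃ b ∈ U, ofE E a b = 1)] :
    #{U ∈ powersetCard 2 (univ : Finset ι) | ∃ a ∈ U, ∃ b ∈ U, ofE E a b = 1} = #E := by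
  classical
  symm
  apply card_bij (fun e _ => ({e.1, e.2} : Finset ι))
  · intro e he
    have hne : e.1 ≠ e.2 := by
      intro h
      have h2 := hE e.1 e.2 he
      apply h2
      rw [← h]
      have : e = (e.1, e.1) := Prod.ext rfl h.symm
      rw [← this]
      exact he
    rw [mem_filter, mem_powersetCard]
    refine ⟨⟨subset_univ _, card_pair hne⟩, e.1, by simp, e.2, by simp, ?_⟩
    unfold ofE
    rw [if_pos (Or.inl he)]
  · intro e he e' he' h
    have h1 : ({e.1, e.2} : Finset ι) = {e'.1, e'.2} := h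
    have h2 : e.1 ∈ ({e'.1, e'.2} : Finset ι) := by rw [← h1]; simp
    have h3 : e.2 ∈ ({e'.1, e'.2} : Finset ι) := by rw [← h1]; simp
    have h4 : e'.1 ∈ ({e.1, e.2} : Finset ι) := by rw [h1]; simp
    have h5 : e'.2 ∈ ({e.1, e.2} : Finset ι) := by rw [h1]; simp
    rw [mem_insert, mem_singleton] at h2 h3 h4 h5
    have hx := hE e.1 e.2 he
    by_cases h6 : e.1 = e'.1
    · by_cases h7 : e.2 = e'.2
      · exact Prod.ext h6 h7
      · exfalso
        have h8 : e.2 = e'.1 := by tauto
        have h9 : e.1 = e.2 := by rw [h6, h8]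
        apply hx
        rw [← h9]
        have : e = (e.1, e.1) := Prod.ext rfl h9.symm
        rw [← this]; exact he
    · exfalso
      have h7 : e.1 = e'.2 := by tauto
      have h8 : e'.1 = e.2 := by
        rcases h4 with h | h
        · exact absurd h.symm h6
        · exact h
      apply hx
      rw [h7, ← h8]
      exact he'
  · intro U hU
    rw [mem_filter, mem_powersetCard] at hU
    obtain ⟨⟨-, hU2⟩, a, ha, b, hb, hab⟩ := hU
    have hne : a ≠ b := by
      rintro rfl
      unfold ofE at hab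
      rw [if_neg] at hab
      · exact absurd hab (by decide)
      · rw [or_self]
        intro h
        exact hE a a h h
    have hUab : U = {a, b} := by
      symm
      apply eq_of_subset_of_card_le
      · intro z hz
        rw [mem_insert, mem_singleton] at hz
        rcases hz with rfl | rfl
        · exact ha
        · exact hb
      · rw [card_pair hne, hU2]
    unfold ofE at hab
    by_cases h : (a, b) ∈ E
    · exact ⟨(a, b), h, hUab.symm⟩
    · by_cases h' : (b, a) ∈ E
      · exact ⟨(b, a), h', by rw [hUab, pair_comm]⟩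
      · rw [if_neg (by tauto)] at hab
        exact absurd hab (by decide)

/-- The number of crossings. -/
theorem edge_count [Nonempty ι] (E : Finset (ι × ι)) (hE : ∀ a b, (a, b) ∈ E → (b, a) ∉ E)
    (hc : AllConst (ofE E)) : (4 : ℤ) ∣ (#E : ℤ) - (Fintype.card ι : ℤ) + 1 := by
  have hA : (ofE E).IsSymm := by
    ext a b
    simp only [ofE, transpose_apply, or_comm]
  have h0 : ∀ i, ofE E i i = 0 := by
    intro i
    unfold ofE
    rw [if_neg]
    rw [or_self]
    intro h
    exact hE i i h h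
  classical
  have h1 := four_dvd hA h0 hc
  rw [card_pairs E hE] at h1
  exact h1

end Pool.Agent.HamWt
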