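import Mathlib

set_option autoImplicit false
set_option linter.unusedSectionVars false

namespace Pool.Agent.HamWt

open Finset SimpleGraph

variable {V : Type} [Fintype V] [DecidableEq V]

/-- A graph consisting of cycles is covered exactly by a list of cycles. -/
lemma cycles_list (G : SimpleGraph V) : ∀ (k : ℕ) (F : SimpleGraph V), F ≤ G → F.IsCycles →
    F.edgeSet.ncard = k →
    ∃ L : List (Σ u : V, G.Walk u u), (∀ C ∈ L, C.2.IsCycle) ∧
      (∀ e : Sym2 V, L.countP (fun C => decide (e ∈ C.2.edges)) = Set.indicator F.edgeSet 1 e) ∧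
      (F ≠ ⊥ → 1 ≤ L.length) := by
  classical
  intro k
  induction k using Nat.strong_induction_on with
  | _ k ih =>
    intro F hFG hF hk
    by_cases hbot : F = ⊥
    · refine ⟨[], by simp, ?_, fun h => absurd hbot h⟩
      intro e
      subst hbot
      simp
    · obtain ⟨v, w, hvw⟩ := SimpleGraph.ne_bot_iff_exists_adj.mp hbot
      obtain ⟨p, hp, hpv⟩ := hF.exists_cycle_toSubgraph_verts_eq_connectedComponentSupp
        (c := F.connectedComponentMk v) (v := v) rfl ⟨w, hvw⟩
      let F' : SimpleGraph V := F.deleteEdges {e | e ∈ p.edges}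
      have hadj : ∀ x ∈ p.support, ∀ y, F.Adj x y → s(x, y) ∈ p.edges := by
        intro x hx y hxy
        have := (hp.adj_toSubgraph_iff_of_isCycles hF
          (by rw [Walk.mem_verts_toSubgraph]; exact hx) y).mpr hxy
        rw [← Walk.mem_edges_toSubgraph]
        exact this
      have hF' : F'.IsCycles := by
        intro x hx
        obtain ⟨y, hy⟩ := hx
        rw [mem_neighborSet, deleteEdges_adj] at hy
        have hxs : x ∉ p.support := fun h => hy.2 (hadj x h y hy.1)
        have : F'.neighborSet x = F.neighborSet x := by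
          ext z
          rw [mem_neighborSet, mem_neighborSet, deleteEdges_adj]
          constructor
          · intro h; exact h.1
          · intro h
            refine ⟨h, fun h2 => hxs ?_⟩
            exact Walk.fst_mem_support_of_mem_edges p h2
        rw [this]
        exact hF ⟨y, hy.1⟩
      have hlt : F'.edgeSet.ncard < k := by
        rw [← hk]
        apply Set.ncard_lt_ncard _ (Set.toFinite _)
        rw [Set.ssubset_iff_of_subset (SimpleGraph.edgeSet_mono (deleteEdges_le _))]
        refine ⟨s(v, w), hvw, ?_⟩
        intro h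
        rw [mem_edgeSet, deleteEdges_adj] at h
        exact h.2 (hadj v p.start_mem_support w hvw)
      obtain ⟨L, hL1, hL2, -⟩ := ih _ hlt F' ((deleteEdges_le _).trans hFG) hF' rfl
      refine ⟨⟨v, p.mapLe hFG⟩ :: L, ?_, ?_, ?_⟩
      · intro C hC
        rw [List.mem_cons] at hC
        rcases hC with rfl | hC
        · exact (Walk.isCycle_mapLe hFG).mpr hp
        · exact hL1 C hC
      · intro e
        rw [List.countP_cons, hL2 e]
        by_cases he : e ∈ p.edges
        · have h1 : e ∈ F.edgeSet := p.edges_subset_edgeSet he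
          have h2 : e ∉ F'.edgeSet := by
            intro h
            rw [edgeSet_deleteEdges] at h
            exact h.2 he
          simp [h1, h2, he]
        · have h2 : e ∈ F'.edgeSet ↔ e ∈ F.edgeSet := by
            rw [edgeSet_deleteEdges]
            constructor
            · intro h; exact h.1
            · intro h; exact ⟨h, he⟩
          by_cases h1 : e ∈ F.edgeSet
          · simp [h1, h2.mpr h1, he]
          · simp [h1, mt h2.mp h1, he]
      · intro _
        simp

section LocalCover

variable {α : Type} [DecidableEq α]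

/-- The graph of one colour. -/
def colGraph (succ : Equiv.Perm V) (tau : V → V) (cout : V → α) (hs : ∀ x, succ x ≠ x)
    (ht0 : ∀ x, tau x ≠ x) (ht : ∀ x, tau (tau x) = x)
    (hgood : ∀ x, (cout (succ.symm (tau x)) = cout (succ.symm x) ∧ cout (tau x) = cout x) ∨
      (cout (succ.symm (tau x)) = cout x ∧ cout (tau x) = cout (succ.symm x))) (a : α) :
    SimpleGraph V where
  Adj x y := (y = succ x ∧ cout x = a) ∨ (x = succ y ∧ cout y = a) ∨
    (y = tau x ∧ (cout (succ.symm x) = a ∨ cout x = a))
  symm := ⟨by
    intro x y h
    rcases h with h | h | ⟨rfl, h⟩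
    · exact Or.inr (Or.inl h)
    · exact Or.inl h
    · refine Or.inr (Or.inr ⟨(ht x).symm, ?_⟩)
      rcases hgood x with ⟨h1, h2⟩ | ⟨h1, h2⟩
      · rw [h1, h2]; exact h
      · rw [h1, h2]; exact h.symm⟩
  loopless := ⟨by
    intro x h
    rcases h with h | h | h
    · exact hs x h.1.symm
    · exact hs x h.1.symm
    · exact ht0 x h.1.symm⟩

lemma local_cover (G : SimpleGraph V) (succ : Equiv.Perm V) (tau : V → V)
    (h1 : ∀ x, G.Adj x (succ x)) (h2 : ∀ x, G.Adj x (tau x)) (ht : ∀ x, tau (tau x) = x)
    (h3 : ∀ x, succ x ≠ succ.symm x) (h4 : ∀ x, tau x ≠ succ x)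
    (h5 : ∀ x, tau x ≠ succ.symm x) (cout : V → α)
    (hne : ∀ x, cout (succ.symm x) ≠ cout x)
    (hgood : ∀ x, (cout (succ.symm (tau x)) = cout (succ.symm x) ∧ cout (tau x) = cout x) ∨
      (cout (succ.symm (tau x)) = cout x ∧ cout (tau x) = cout (succ.symm x))) :
    ∃ L : List (Σ u : V, G.Walk u u), (∀ C ∈ L, C.2.IsCycle) ∧
      (∀ x, L.countP (fun C => decide (s(x, succ x) ∈ C.2.edges)) = 1) ∧
      (∀ x, L.countP (fun C => decide (s(x, tau x) ∈ C.2.edges)) = 2) ∧
      #(univ.image cout) ≤ L.length := by
  classical
  have hs : ∀ x, succ x ≠ x := fun x => (h1 x).ne'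
  have ht0 : ∀ x, tau x ≠ x := fun x => (h2 x).ne'
  let F := colGraph succ tau cout hs ht0 ht hgood
  have hFadj : ∀ a x y, (F a).Adj x y ↔ (y = succ x ∧ cout x = a) ∨ (x = succ y ∧ cout y = a) ∨
    (y = tau x ∧ (cout (succ.symm x) = a ∨ cout x = a)) := fun a x y => Iff.rfl
  have hle : ∀ a, F a ≤ G := by
    intro a x y h
    rw [hFadj] at h
    rcases h with h | h | h
    · rw [h.1]; exact h1 x
    · rw [h.1]; exact (h1 y).symm
    · rw [h.1]; exact h2 x
  have hcyc : ∀ a, (F a).IsCycles := by
    intro a x hx
    have hout : cout x = a → (F a).neighborSet x = {succ x, tau x} := by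
      intro ha
      ext y
      rw [mem_neighborSet, hFadj, Set.mem_insert_iff, Set.mem_singleton_iff]
      constructor
      · rintro (h | h | h)
        · exact Or.inl h.1
        · exfalso
          apply hne x
          rw [ha, h.1, Equiv.symm_apply_apply, h.2]
        · exact Or.inr h.1
      · rintro (h | h)
        · exact Or.inl ⟨h, ha⟩
        · exact Or.inr (Or.inr ⟨h, Or.inr ha⟩)
    have hin : cout (succ.symm x) = a → (F a).neighborSet x = {succ.symm x, tau x} := by
      intro ha
      ext y
      rw [mem_neighborSet, hFadj, Set.mem_insert_iff, Set.mem_singleton_iff]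
      constructor
      · rintro (h | h | h)
        · exfalso
          apply hne x
          rw [ha, h.2]
        · left
          rw [h.1, Equiv.symm_apply_apply]
        · exact Or.inr h.1
      · rintro (h | h)
        · refine Or.inr (Or.inl ⟨?_, ?_⟩)
          · rw [h, Equiv.apply_symm_apply]
          · rw [h]; exact ha
        · exact Or.inr (Or.inr ⟨h, Or.inl ha⟩)
    have hcase : cout x = a ∨ cout (succ.symm x) = a := by
      obtain ⟨y, hy⟩ := hx
      rw [mem_neighborSet, hFadj] at hy
      rcases hy with h | h | h
      · exact Or.inl h.2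
      · right; rw [h.1, Equiv.symm_apply_apply]; exact h.2
      · exact h.2.symm
    rcases hcase with h | h
    · rw [hout h, Set.ncard_pair (h4 x).symm]
    · rw [hin h, Set.ncard_pair (h5 x).symm]
  choose Lf hL1 hL2 hL3 using fun a => cycles_list G _ (F a) (hle a) (hcyc a) rfl
  refine ⟨(univ.image cout).toList.flatMap Lf, ?_, ?_, ?_, ?_⟩
  · intro C hC
    rw [List.mem_flatMap] at hC
    obtain ⟨a, _, h⟩ := hC
    exact hL1 a C h
  · intro x
    rw [List.countP_flatMap]
    have : (List.countP (fun C : (Σ u : V, G.Walk u u) => decide (s(x, succ x) ∈ C.2.edges))) ∘ Lf =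
        fun a => if cout x = a then 1 else 0 := by
      funext a
      rw [Function.comp_apply, hL2]
      by_cases ha : cout x = a
      · rw [if_pos ha, Set.indicator_of_mem]
        · rfl
        · exact Or.inl ⟨rfl, ha⟩
      · rw [if_neg ha, Set.indicator_of_notMem]
        rw [mem_edgeSet, hFadj]
        rintro (h | h | h)
        · exact ha h.2
        · apply h3 (succ x)
          rw [Equiv.symm_apply_apply]
          exact h.1.symm
        · exact h4 x h.1.symm
    rw [this, Finset.sum_map_toList, Finset.sum_ite_eq]
    simp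
  · intro x
    rw [List.countP_flatMap]
    have : (List.countP (fun C : (Σ u : V, G.Walk u u) => decide (s(x, tau x) ∈ C.2.edges))) ∘ Lf =
        fun a => (if cout x = a then 1 else 0) + (if cout (succ.symm x) = a then 1 else 0) := by
      funext a
      rw [Function.comp_apply, hL2]
      by_cases ha : cout (succ.symm x) = a ∨ cout x = a
      · rw [Set.indicator_of_mem]
        · rcases ha with ha | ha
          · rw [if_pos ha, if_neg]
            · rfl
            · intro h; exact hne x (by rw [ha, h])
          · rw [if_pos ha, if_neg]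
            · rfl
            · intro h; exact hne x (by rw [ha, h])
        · exact Or.inr (Or.inr ⟨rfl, ha⟩)
      · rw [Set.indicator_of_notMem]
        · push Not at ha
          rw [if_neg ha.1, if_neg ha.2]
          rfl
        · rw [mem_edgeSet, hFadj]
          rintro (h | h | h)
          · exact h4 x h.1
          · apply h5 x
            have := congrArg succ.symm h.1
            rw [Equiv.symm_apply_apply] at this
            exact this.symm
          · exact ha h.2
    rw [this, Finset.sum_map_toList, Finset.sum_add_distrib, Finset.sum_ite_eq,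
      Finset.sum_ite_eq]
    simp
  · rw [List.length_flatMap, Finset.card_eq_sum_ones, Finset.sum_map_toList]
    apply Finset.sum_le_sum
    intro a ha
    apply hL3 a
    rw [mem_image] at ha
    obtain ⟨x, _, hx⟩ := ha
    rw [SimpleGraph.ne_bot_iff_exists_adj]
    exact ⟨x, succ x, Or.inl ⟨rfl, hx⟩⟩

end LocalCover

end Pool.Agent.HamWt
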