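import Pool.Agent.HamWt.Chord
import Pool.Agent.HamWt.Color
import Pool.Agent.HamWt.Cycles

set_option autoImplicit false
set_option linter.unusedSectionVars false

namespace Pool.Agent.HamWt

open Finset SimpleGraph

variable {V : Type} [Fintype V] [DecidableEq V]

section Build

variable (G : SimpleGraph V) {u : V} (C : G.Walk u u)

/-- The word of a Hamiltonian cycle of a cubic graph. -/
theorem exists_word [DecidableRel G.Adj] (hG : G.IsRegularOfDegree 3)
    (hC : C.IsHamiltonianCycle) : ∃ W : Word V, W.w = C.getVert ∧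
      (∀ x, G.Adj x (W.succ x)) ∧ (∀ x, G.Adj x (W.tau x)) ∧
      (∀ x, W.succ x ≠ W.succ.symm x) ∧ (∀ x, W.tau x ≠ W.succ x) ∧
      (∀ x, W.tau x ≠ W.succ.symm x) ∧
      (∀ x y, s(x, y) ∈ C.edges ↔ (y = W.succ x ∨ x = W.succ y)) ∧
      (∀ x y, (G.Adj x y ∧ s(x, y) ∉ C.edges) ↔ y = W.tau x) := by
  classical
  have hlen : C.length = Fintype.card V := hC.length_eq
  have hcyc := hC.isCycle
  have h3 : 3 ≤ C.length := hcyc.three_le_length
  have hex : ∀ x : V, ∃ i, i < C.length ∧ C.getVert i = x := by
    intro x
    obtain ⟨i, hi, hil⟩ := Walk.mem_support_iff_exists_getVert.mp (hC.mem_support x)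
    rcases Nat.lt_or_ge i C.length with h | h
    · exact ⟨i, h, hi⟩
    · refine ⟨0, by omega, ?_⟩
      have : i = C.length := le_antisymm hil h
      rw [this, Walk.getVert_length] at hi
      rw [Walk.getVert_zero, hi]
  choose pos hpos1 hpos2 using hex
  have hinj : ∀ i j, i < C.length → j < C.length → C.getVert i = C.getVert j → i = j := by
    intro i j hi hj h
    exact hcyc.getVert_injOn' (by rw [Set.mem_ofPred_eq]; omega)
      (by rw [Set.mem_ofPred_eq]; omega) h
  have hinj' : ∀ i j, i < C.length → j < C.length →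
      C.getVert (i + 1) = C.getVert (j + 1) → i = j := by
    intro i j hi hj h
    have := hcyc.getVert_injOn (by rw [Set.mem_ofPred_eq]; omega)
      (by rw [Set.mem_ofPred_eq]; omega) h
    omega
  have hposw : ∀ i, i < C.length → pos (C.getVert i) = i := by
    intro i hi
    exact hinj _ _ (hpos1 _) hi (hpos2 _)
  have hsinj : Function.Injective (fun x => C.getVert (pos x + 1)) := by
    intro x y h
    have := hinj' _ _ (hpos1 x) (hpos1 y) h
    rw [← hpos2 x, ← hpos2 y, this]
  let succ : Equiv.Perm V := Equiv.ofBijective _ (Finite.injective_iff_bijective.mp hsinj)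
  have hsucc : ∀ x, succ x = C.getVert (pos x + 1) := fun x => rfl
  have hadj : ∀ x, G.Adj x (succ x) := by
    intro x
    rw [hsucc]
    have := C.adj_getVert_succ (hpos1 x)
    rw [hpos2 x] at this
    exact this
  have hclose : C.getVert C.length = C.getVert 0 := by
    rw [Walk.getVert_length, Walk.getVert_zero]
  have hss : ∀ x, succ x ≠ succ.symm x := by
    intro x h
    have h1 : succ (succ x) = x := by rw [h, Equiv.apply_symm_apply]
    have hx := hpos1 x
    by_cases h2 : pos x + 1 < C.length
    · have h3' : pos (succ x) = pos x + 1 := by rw [hsucc, hposw _ h2]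
      rw [hsucc (succ x), h3'] at h1
      by_cases h4 : pos x + 1 + 1 < C.length
      · have := hposw _ h4
        rw [h1] at this
        omega
      · have h5 : pos x + 1 + 1 = C.length := by omega
        rw [h5, hclose] at h1
        have := hposw 0 (by omega)
        rw [h1] at this
        omega
    · have h5 : pos x + 1 = C.length := by omega
      have h6 : pos (succ x) = 0 := by rw [hsucc, h5, hclose, hposw 0 (by omega)]
      rw [hsucc (succ x), h6] at h1
      have := hposw (0 + 1) (by omega)
      rw [h1] at this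
      omega
  have hpred : ∀ x, G.Adj x (succ.symm x) := by
    intro x
    have := (hadj (succ.symm x)).symm
    rwa [Equiv.apply_symm_apply] at this
  have hthird : ∀ x, ∃ y, (G.neighborFinset x \ {succ x, succ.symm x}) = {y} := by
    intro x
    rw [← card_eq_one, card_sdiff_of_subset, card_neighborFinset_eq_degree, hG x,
      card_pair (hss x)]
    intro y hy
    rw [mem_insert, mem_singleton] at hy
    rw [mem_neighborFinset]
    rcases hy with rfl | rfl
    · exact hadj x
    · exact hpred x
  choose tau htau using hthird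
  have htau' : ∀ x y, (G.Adj x y ∧ y ≠ succ x ∧ y ≠ succ.symm x) ↔ y = tau x := by
    intro x y
    rw [← mem_singleton, ← htau x, mem_sdiff, mem_neighborFinset, mem_insert, mem_singleton, not_or]
  have ht := fun x => (htau' x (tau x)).mpr rfl
  have htt : ∀ x, tau (tau x) = x := by
    intro x
    symm
    rw [← htau']
    refine ⟨(ht x).1.symm, ?_, ?_⟩
    · intro h
      apply (ht x).2.2
      rw [Equiv.eq_symm_apply]
      exact h.symm
    · intro h
      apply (ht x).2.1
      rw [Equiv.eq_symm_apply] at h
      exact h.symm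
  have hedge : ∀ x y, s(x, y) ∈ C.edges ↔ (y = succ x ∨ x = succ y) := by
    intro x y
    rw [← Walk.mem_edges_toSubgraph, Subgraph.mem_edgeSet, Walk.toSubgraph_adj_iff]
    constructor
    · rintro ⟨i, hi, hil⟩
      rw [Sym2.eq_iff] at hi
      rcases hi with ⟨h1, h2⟩ | ⟨h1, h2⟩
      · left
        rw [hsucc, ← h1, hposw i hil, h2]
      · right
        rw [hsucc, ← h1, hposw i hil, h2]
    · rintro (h | h)
      · refine ⟨pos x, ?_, hpos1 x⟩
        rw [hpos2, ← hsucc, h]
      · refine ⟨pos y, ?_, hpos1 y⟩
        rw [hpos2, ← hsucc, h, Sym2.eq_swap]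
  refine ⟨⟨C.getVert, pos, tau, succ, fun x => hlen ▸ hpos1 x, hpos2, fun i hi => hposw i (hlen ▸ hi),
    by rw [← hlen, hclose], hsucc, htt, fun x => (ht x).1.ne'⟩, rfl, hadj, fun x => (ht x).1, hss,
    fun x => (ht x).2.1, fun x => (ht x).2.2, hedge, ?_⟩
  intro x y
  rw [← htau', hedge, not_or]
  constructor
  · rintro ⟨h1, h2, h3⟩
    refine ⟨h1, h2, fun h => h3 ?_⟩
    rw [h, Equiv.apply_symm_apply]
  · rintro ⟨h1, h2, h3⟩
    refine ⟨h1, h2, fun h => h3 ?_⟩
    rw [h, Equiv.symm_apply_apply]

end Build

namespace Word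

variable (W : Word V)

/-- There are two ends for each chord. -/
lemma card_Ch : 2 * Fintype.card W.Ch = Fintype.card V := by
  classical
  have h1 : Fintype.card W.Ch = #{x : V | W.pos x < W.pos (W.tau x)} := Fintype.card_subtype _
  have h2 : #{x : V | W.pos x < W.pos (W.tau x)} = #{x : V | ¬ W.pos x < W.pos (W.tau x)} := by
    apply card_bij (fun x _ => W.tau x)
    · intro x hx
      rw [mem_filter] at hx ⊢
      rw [W.tau_tau]
      exact ⟨mem_univ _, by omega⟩
    · intro x _ y _ h
      have := congrArg W.tau h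
      rwa [W.tau_tau, W.tau_tau] at this
    · intro x hx
      rw [mem_filter] at hx
      refine ⟨W.tau x, ?_, W.tau_tau x⟩
      rw [mem_filter, W.tau_tau]
      have := W.pos_tau_ne x
      exact ⟨mem_univ _, by omega⟩
  have h3 := card_filter_add_card_filter_not (s := (univ : Finset V))
    (fun x => W.pos x < W.pos (W.tau x))
  rw [card_univ] at h3
  omega

end Word

/-- Transfer along an equivalence. -/
lemma allConst_equiv {ι κ : Type*} [Fintype ι] [DecidableEq ι] [Fintype κ] [DecidableEq κ]
    (e : ι ≃ κ) (A : Matrix ι ι (ZMod 2)) (B : Matrix κ κ (ZMod 2))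
    (hAB : ∀ i j, A i j = B (e i) (e j)) (h : AllConst A) : AllConst B := by
  intro m p hp0 hp i j
  have h1 : ∀ x, ap A (fun y => p (e y)) x = ap B p (e x) := by
    intro x
    unfold ap
    rw [← e.sum_comp]
    apply sum_congr rfl
    intro y _
    rw [hAB]
  have h2 := h m (fun y => p (e y)) (fun y => hp0 _) (fun y => by rw [h1]; exact hp (e y))
    (e.symm i) (e.symm j)
  simpa using h2

end Pool.Agent.HamWt
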