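import Pool.Agent.HamWt.Mod16

set_option autoImplicit false
set_option linter.unusedSectionVars false

namespace Pool.Agent.HamWt

open Finset Matrix

variable {V : Type} [Fintype V] [DecidableEq V]

/-- A cyclic word: the vertices in cyclic order, with a fixed point free involution. -/
structure Word (V : Type) [Fintype V] where
  /-- the i-th letter -/
  w : ℕ → V
  /-- the position of a letter -/
  pos : V → ℕ
  /-- the other end of the chord -/
  tau : V → V
  /-- the cyclic successor -/
  succ : Equiv.Perm V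
  pos_lt : ∀ x, pos x < Fintype.card V
  w_pos : ∀ x, w (pos x) = x
  pos_w : ∀ i, i < Fintype.card V → pos (w i) = i
  w_last : w (Fintype.card V) = w 0
  succ_eq : ∀ x, succ x = w (pos x + 1)
  tau_tau : ∀ x, tau (tau x) = x
  tau_ne : ∀ x, tau x ≠ x

namespace Word

variable (W : Word V)

/-- The chords, given by their first ends. -/
abbrev Ch : Type := {x : V // W.pos x < W.pos (W.tau x)}

/-- Two chords cross, the first one starting first. -/
def Cr (x y : V) : Prop :=
  W.pos x < W.pos y ∧ W.pos y < W.pos (W.tau x) ∧ W.pos (W.tau x) < W.pos (W.tau y)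

instance (x y : V) : Decidable (W.Cr x y) := by unfold Cr; infer_instance

/-- The interlace matrix. -/
def mat : Matrix W.Ch W.Ch (ZMod 2) := fun x y => if W.Cr x y ∨ W.Cr y x then 1 else 0

lemma mat_symm : W.mat.IsSymm := by
  ext x y
  simp only [mat, transpose_apply, or_comm]

lemma mat_diag (x : W.Ch) : W.mat x x = 0 := by
  simp [mat, Cr]

lemma pos_inj {x y : V} (h : W.pos x = W.pos y) : x = y := by
  rw [← W.w_pos x, ← W.w_pos y, h]

lemma pos_tau_ne (x : V) : W.pos (W.tau x) ≠ W.pos x := fun h => W.tau_ne x (W.pos_inj h)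

variable {M : Type} [AddCommGroup M]

/-- Extend a function on chords to all vertices. -/
def ext (p : W.Ch → M) (x : V) : M :=
  if h : W.pos x < W.pos (W.tau x) then p ⟨x, h⟩ else
    p ⟨W.tau x, by
      rw [W.tau_tau]
      have := W.pos_tau_ne x
      omega⟩

lemma ext_coe (p : W.Ch → M) (x : W.Ch) : W.ext p x = p x := by
  simp [ext, x.2]

lemma ext_tau (p : W.Ch → M) (x : V) : W.ext p (W.tau x) = W.ext p x := by
  have hne := W.pos_tau_ne x
  unfold ext
  by_cases h : W.pos x < W.pos (W.tau x)
  · have h' : ¬ W.pos (W.tau x) < W.pos (W.tau (W.tau x)) := by rw [W.tau_tau]; omega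
    rw [dif_neg h', dif_pos h]
    congr 1
    exact Subtype.ext (W.tau_tau x)
  · have h' : W.pos (W.tau x) < W.pos (W.tau (W.tau x)) := by rw [W.tau_tau]; omega
    rw [dif_pos h', dif_neg h]

/-- Partial sums. -/
def col (q : V → M) (k : ℕ) : M := ∑ j ∈ range k, q (W.w j)

lemma col_succ (q : V → M) (k : ℕ) : W.col q (k + 1) = W.col q k + q (W.w k) := by
  unfold col
  rw [sum_range_succ]

lemma sum_Ioo (q : V → M) {a b : ℕ} (hb : b ≤ Fintype.card V) :
    ∑ j ∈ Ioo a b, q (W.w j) = ∑ y ∈ univ.filter (fun y => a < W.pos y ∧ W.pos y < b), q y := by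
  apply sum_bij (fun j _ => W.w j)
  · intro j hj
    rw [mem_Ioo] at hj
    rw [mem_filter, W.pos_w j (by omega)]
    exact ⟨mem_univ _, hj⟩
  · intro j hj k hk h
    rw [mem_Ioo] at hj hk
    rw [← W.pos_w j (by omega), ← W.pos_w k (by omega), h]
  · intro y hy
    rw [mem_filter] at hy
    exact ⟨W.pos y, by rw [mem_Ioo]; exact hy.2, W.w_pos y⟩
  · intro j _
    rfl

lemma col_split (q : V → M) {a b : ℕ} (hab : a < b) :
    W.col q b = W.col q a + q (W.w a) + ∑ j ∈ Ioo a b, q (W.w j) := by
  have h1 : range b = range (a + 1) ∪ Ioo a b := by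
    ext j
    simp only [mem_range, mem_union, mem_Ioo]
    omega
  have h2 : Disjoint (range (a + 1)) (Ioo a b) := by
    rw [disjoint_left]
    intro j h3 h4
    rw [mem_range] at h3
    rw [mem_Ioo] at h4
    omega
  unfold col
  rw [h1, sum_union h2, sum_range_succ]

/-- the matching element -/
def rep (y : V) : W.Ch := if h : W.pos y < W.pos (W.tau y) then ⟨y, h⟩ else
    ⟨W.tau y, by
      rw [W.tau_tau]
      have := W.pos_tau_ne y
      omega⟩

lemma ext_eq_rep (p : W.Ch → M) (y : V) : W.ext p y = p (W.rep y) := by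
  unfold ext rep
  by_cases h : W.pos y < W.pos (W.tau y)
  · rw [dif_pos h, dif_pos h]
  · rw [dif_neg h, dif_neg h]

variable {m : ℕ}

lemma add_self_zero (v : Fin m → ZMod 2) : v + v = 0 := by
  ext k
  exact CharTwo.add_self_eq_zero _

lemma sum_pairs (p : W.Ch → (Fin m → ZMod 2)) (s : Finset V) (hs : ∀ y ∈ s, W.tau y ∈ s) :
    ∑ y ∈ s, W.ext p y = 0 := by
  apply sum_involution (fun y _ => W.tau y)
  · intro y _
    rw [W.ext_tau, add_self_zero]
  · intro y _ _
    exact W.tau_ne y
  · intro y hy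
    exact hs y hy
  · intro y _
    exact W.tau_tau y

lemma col_card (p : W.Ch → (Fin m → ZMod 2)) : W.col (W.ext p) (Fintype.card V) = 0 := by
  have h1 : W.col (W.ext p) (Fintype.card V) = ∑ y : V, W.ext p y := by
    unfold col
    apply sum_bij (fun j _ => W.w j)
    · intro j _; exact mem_univ _
    · intro j hj k hk h
      rw [mem_range] at hj hk
      rw [← W.pos_w j (by omega), ← W.pos_w k (by omega), h]
    · intro y _
      exact ⟨W.pos y, by rw [mem_range]; exact W.pos_lt y, W.w_pos y⟩
    · intro j _; rfl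
  rw [h1]
  exact W.sum_pairs p univ (fun _ _ => mem_univ _)

lemma sum_cross (p : W.Ch → (Fin m → ZMod 2)) (x : W.Ch) :
    ∑ j ∈ Ioo (W.pos x) (W.pos (W.tau x)), W.ext p (W.w j) = ap W.mat p x := by
  classical
  rw [W.sum_Ioo _ (W.pos_lt _).le]
  set s := univ.filter (fun y => W.pos x < W.pos y ∧ W.pos y < W.pos (W.tau x)) with hs
  rw [← sum_filter_add_sum_filter_not s (fun y => W.tau y ∈ s)]
  have h1 : ∑ y ∈ s.filter (fun y => W.tau y ∈ s), W.ext p y = 0 := by
    apply W.sum_pairs
    intro y hy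
    rw [mem_filter] at hy ⊢
    exact ⟨hy.2, by rw [W.tau_tau]; exact hy.1⟩
  rw [h1, zero_add]
  have h2 : ap W.mat p x = ∑ b ∈ univ.filter (fun b : W.Ch => W.Cr x b ∨ W.Cr b x), p b := by
    unfold ap mat
    rw [sum_filter]
    apply sum_congr rfl
    intro b _
    by_cases h : W.Cr x b ∨ W.Cr b x
    · rw [if_pos h, if_pos h, one_smul]
    · rw [if_neg h, if_neg h, zero_smul]
  rw [h2]
  apply sum_bij (fun y _ => W.rep y)
  · intro y hy
    rw [mem_filter, hs, mem_filter, mem_filter] at hy
    obtain ⟨⟨-, hy1, hy2⟩, hy3⟩ := hy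
    rw [mem_filter]
    refine ⟨mem_univ _, ?_⟩
    have hne1 : W.pos (W.tau y) ≠ W.pos x := by
      intro h
      have := W.pos_inj h
      rw [← this, W.tau_tau] at hy2
      omega
    have hne2 : W.pos (W.tau y) ≠ W.pos (W.tau x) := by
      intro h
      have := congrArg W.tau (W.pos_inj h)
      rw [W.tau_tau, W.tau_tau] at this
      rw [this] at hy1
      omega
    have hy4 : ¬ (W.pos x < W.pos (W.tau y) ∧ W.pos (W.tau y) < W.pos (W.tau x)) :=
      fun h => hy3 ⟨mem_univ _, h⟩
    unfold rep Cr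
    by_cases h : W.pos y < W.pos (W.tau y)
    · rw [dif_pos h]
      left
      refine ⟨hy1, hy2, ?_⟩
      simp only
      omega
    · rw [dif_neg h]
      right
      simp only [W.tau_tau]
      have := W.pos_tau_ne y
      omega
  · intro y hy z hz h
    rw [mem_filter, hs, mem_filter] at hy hz
    obtain ⟨⟨-, hy1, hy2⟩, hy3⟩ := hy
    obtain ⟨⟨-, hz1, hz2⟩, hz3⟩ := hz
    rw [mem_filter] at hy3 hz3
    unfold rep at h
    by_cases h3 : W.pos y < W.pos (W.tau y) <;> by_cases h4 : W.pos z < W.pos (W.tau z)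
    · rw [dif_pos h3, dif_pos h4] at h
      exact congrArg Subtype.val h
    · rw [dif_pos h3, dif_neg h4] at h
      exfalso
      have h5 : y = W.tau z := congrArg Subtype.val h
      apply hz3
      rw [← h5]
      exact ⟨mem_univ _, hy1, hy2⟩
    · rw [dif_neg h3, dif_pos h4] at h
      exfalso
      have h5 : W.tau y = z := congrArg Subtype.val h
      apply hy3
      rw [h5]
      exact ⟨mem_univ _, hz1, hz2⟩
    · rw [dif_neg h3, dif_neg h4] at h
      have h5 : W.tau y = W.tau z := congrArg Subtype.val h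
      have := congrArg W.tau h5
      rw [W.tau_tau, W.tau_tau] at this
      exact this
  · intro b hb
    rw [mem_filter] at hb
    have hb2 := b.2
    rcases hb.2 with h | h
    · refine ⟨b, ?_, ?_⟩
      · rw [mem_filter, hs, mem_filter, mem_filter]
        unfold Cr at h
        refine ⟨⟨mem_univ _, h.1, h.2.1⟩, ?_⟩
        rintro ⟨-, h3⟩
        omega
      · unfold rep
        rw [dif_pos b.2]
    · refine ⟨W.tau b, ?_, ?_⟩
      · rw [mem_filter, hs, mem_filter, mem_filter]
        unfold Cr at h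
        refine ⟨⟨mem_univ _, h.2.1, h.2.2⟩, ?_⟩
        rintro ⟨-, h3⟩
        rw [W.tau_tau] at h3
        omega
      · unfold rep
        rw [dif_neg]
        · exact Subtype.ext (W.tau_tau _)
        · rw [W.tau_tau]; omega
  · intro y _
    exact W.ext_eq_rep p y

lemma cout_pred (p : W.Ch → (Fin m → ZMod 2)) (x : V) :
    W.col (W.ext p) (W.pos (W.succ.symm x) + 1) = W.col (W.ext p) (W.pos x) := by
  set y := W.succ.symm x with hy
  have hx : x = W.w (W.pos y + 1) := by
    rw [← W.succ_eq, hy, Equiv.apply_symm_apply]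
  have hlt := W.pos_lt y
  by_cases h : W.pos y + 1 < Fintype.card V
  · rw [hx, W.pos_w _ h]
  · have h' : W.pos y + 1 = Fintype.card V := by omega
    rw [hx, h', W.w_last, W.pos_w 0 (by omega), W.col_card]
    simp [col]

/-- Colourings with more than two colours are excluded, so all good maps are constant. -/
theorem allConst (H : ∀ (m : ℕ) (cout : V → (Fin m → ZMod 2)),
    (∀ x, cout (W.succ.symm x) ≠ cout x) →
    (∀ x, (cout (W.succ.symm (W.tau x)) = cout (W.succ.symm x) ∧ cout (W.tau x) = cout x) ∨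
      (cout (W.succ.symm (W.tau x)) = cout x ∧ cout (W.tau x) = cout (W.succ.symm x))) →
    #(univ.image cout) ≤ 2) : AllConst W.mat := by
  classical
  intro m p hp0 hp
  set c := W.col (W.ext p) with hc
  have hin : ∀ x, c (W.pos (W.succ.symm x) + 1) = c (W.pos x) := W.cout_pred p
  have hout : ∀ x, c (W.pos x + 1) = c (W.pos x) + W.ext p x := by
    intro x
    rw [hc, W.col_succ, W.w_pos]
  have hext0 : ∀ x, W.ext p x ≠ 0 := by
    intro x
    rw [W.ext_eq_rep]
    exact hp0 _
  have hne : ∀ x, c (W.pos (W.succ.symm x) + 1) ≠ c (W.pos x + 1) := by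
    intro x h
    rw [hin, hout] at h
    exact hext0 x (by simpa using h)
  have hmain : ∀ x : W.Ch,
      (c (W.pos (W.tau x)) = c (W.pos x) ∧ c (W.pos (W.tau x) + 1) = c (W.pos x + 1)) ∨
      (c (W.pos (W.tau x)) = c (W.pos x + 1) ∧ c (W.pos (W.tau x) + 1) = c (W.pos x)) := by
    intro x
    have h1 : c (W.pos (W.tau x)) = c (W.pos x) + W.ext p x + ap W.mat p x := by
      rw [hc, W.col_split _ x.2, W.w_pos, W.sum_cross]
    have h2 := hout (W.tau x)
    rw [W.ext_tau] at h2
    rcases hp x with h | h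
    · right
      rw [h, add_zero] at h1
      refine ⟨by rw [h1, hout], ?_⟩
      rw [h2, h1, add_assoc, add_self_zero, add_zero]
    · left
      rw [h, W.ext_coe, add_assoc, add_self_zero, add_zero] at h1
      refine ⟨h1, ?_⟩
      rw [h2, h1, hout]
  have hgood : ∀ x, (c (W.pos (W.succ.symm (W.tau x)) + 1) = c (W.pos (W.succ.symm x) + 1) ∧
      c (W.pos (W.tau x) + 1) = c (W.pos x + 1)) ∨
      (c (W.pos (W.succ.symm (W.tau x)) + 1) = c (W.pos x + 1) ∧
        c (W.pos (W.tau x) + 1) = c (W.pos (W.succ.symm x) + 1)) := by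
    intro x
    rw [hin, hin]
    by_cases hx : W.pos x < W.pos (W.tau x)
    · exact hmain ⟨x, hx⟩
    · have hx' : W.pos (W.tau x) < W.pos (W.tau (W.tau x)) := by
        rw [W.tau_tau]
        have := W.pos_tau_ne x
        omega
      have h3 := hmain ⟨W.tau x, hx'⟩
      simp only [W.tau_tau] at h3
      rcases h3 with h3 | h3
      · left; exact ⟨h3.1.symm, h3.2.symm⟩
      · right; exact ⟨h3.2.symm, h3.1.symm⟩
  have hcard := H m (fun x => c (W.pos x + 1)) hne hgood
  intro i j
  have key : ∀ x : W.Ch, p x = c (W.pos (W.succ.symm x) + 1) + c (W.pos x + 1) := by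
    intro x
    rw [hin, hout, W.ext_coe, ← add_assoc, add_self_zero, zero_add]
  have hmem : ∀ x : V, c (W.pos x + 1) ∈ univ.image (fun x => c (W.pos x + 1)) := by
    intro x
    exact mem_image_of_mem _ (mem_univ x)
  have hpair : ∀ x : V, univ.image (fun x => c (W.pos x + 1)) =
      {c (W.pos (W.succ.symm x) + 1), c (W.pos x + 1)} := by
    intro x
    symm
    apply eq_of_subset_of_card_le
    · intro y hy
      rw [mem_insert, mem_singleton] at hy
      rcases hy with rfl | rfl
      · exact hmem _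
      · exact hmem _
    · rw [card_pair (hne x)]
      exact hcard
  have h4 : ({c (W.pos (W.succ.symm i) + 1), c (W.pos i + 1)} : Finset (Fin m → ZMod 2)) =
      {c (W.pos (W.succ.symm j) + 1), c (W.pos j + 1)} := by
    rw [← hpair, ← hpair]
  have h5 : ∑ y ∈ ({c (W.pos (W.succ.symm i) + 1), c (W.pos i + 1)} : Finset _), y =
      ∑ y ∈ ({c (W.pos (W.succ.symm j) + 1), c (W.pos j + 1)} : Finset _), y := by rw [h4]
  rw [sum_pair (hne i), sum_pair (hne j)] at h5
  rw [key i, key j, h5]

end Word

end Pool.Agent.HamWt
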