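import Pool.Agent.HamWt.Expand

set_option autoImplicit false
set_option linter.unusedSectionVars false

namespace Pool.Agent.HamWt

open Matrix Finset Module

variable {ι : Type*} [Fintype ι] [DecidableEq ι]

/-- The vector-valued product. -/
def ap (A : Matrix ι ι (ZMod 2)) {m : ℕ} (p : ι → (Fin m → ZMod 2)) (i : ι) : Fin m → ZMod 2 :=
  ∑ j, A i j • p j

lemma ap_apply (A : Matrix ι ι (ZMod 2)) {m : ℕ} (p : ι → (Fin m → ZMod 2)) (i : ι) (k : Fin m) :
    ap A p i k = (A *ᵥ (fun j => p j k)) i := by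
  simp [ap, mulVec, dotProduct, Finset.sum_apply]

lemma card_ker (M : Matrix ι ι (ZMod 2)) :
    #{x : ι → ZMod 2 | M *ᵥ x = 0} = 2 ^ nul M := by
  classical
  have h := Module.card_eq_pow_finrank (K := ZMod 2) (V := LinearMap.ker M.mulVecLin)
  rw [ZMod.card] at h
  unfold nul
  rw [← h, Fintype.card_subtype]
  congr 1
  ext x
  simp

lemma card_tuples (M : Matrix ι ι (ZMod 2)) (m : ℕ) :
    #{p : ι → (Fin m → ZMod 2) | ∀ k, M *ᵥ (fun j => p j k) = 0} = (2 ^ m) ^ nul M := by
  classical
  have h1 : #{p : ι → (Fin m → ZMod 2) | ∀ k, M *ᵥ (fun j => p j k) = 0} =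
      #(Fintype.piFinset (fun _ : Fin m => ({x : ι → ZMod 2 | M *ᵥ x = 0} : Finset _))) := by
    apply card_bij (fun p _ => fun k j => p j k)
    · intro p hp
      rw [mem_filter] at hp
      rw [Fintype.mem_piFinset]
      intro k
      rw [mem_filter]
      exact ⟨mem_univ _, hp.2 k⟩
    · intro p _ q _ h
      ext j k
      exact congrFun (congrFun h k) j
    · intro q hq
      rw [Fintype.mem_piFinset] at hq
      refine ⟨fun j k => q k j, ?_, rfl⟩
      rw [mem_filter]
      exact ⟨mem_univ _, fun k => (mem_filter.mp (hq k)).2⟩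
  rw [h1, Fintype.card_piFinset]
  simp only [card_ker, prod_const, card_univ, Fintype.card_fin]
  rw [← pow_mul, ← pow_mul, mul_comm]

/-- The local sign. -/
def loc {m : ℕ} (y x : Fin m → ZMod 2) : ℤ := (if y = 0 then 1 else 0) - (if y + x = 0 then 1 else 0)

lemma signed_count (A : Matrix ι ι (ZMod 2)) (m : ℕ) :
    ∑ S : Finset ι, (-1 : ℤ) ^ (#S) * ((2 : ℤ) ^ m) ^ nul (addD A S) =
      ∑ p : ι → (Fin m → ZMod 2), ∏ i, loc (ap A p i) (p i) := by
  classical
  have h1 : ∀ S : Finset ι, ((2 : ℤ) ^ m) ^ nul (addD A S) =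
      ∑ p : ι → (Fin m → ZMod 2), ∏ i,
        (if ap A p i + (if i ∈ S then p i else 0) = 0 then (1 : ℤ) else 0) := by
    intro S
    have := card_tuples (addD A S) m
    have h2 : ((2 : ℤ) ^ m) ^ nul (addD A S) =
        ((#{p : ι → (Fin m → ZMod 2) | ∀ k, (addD A S) *ᵥ (fun j => p j k) = 0} : ℕ) : ℤ) := by
      rw [this]; push_cast; rfl
    rw [h2, card_filter]
    push_cast
    apply sum_congr rfl
    intro p _
    rw [Finset.prod_ite_zero]
    simp only [prod_const_one]
    congr 1
    rw [eq_iff_iff]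
    have h3 : ∀ k i, ((addD A S) *ᵥ (fun j => p j k)) i =
        (ap A p i + (if i ∈ S then p i else 0)) k := by
      intro k i
      rw [Pi.add_apply, ap_apply]
      simp only [mulVec, dotProduct, addD, add_mul, sum_add_distrib]
      congr 1
      rw [sum_eq_single i]
      · by_cases h : i ∈ S <;> simp [h]
      · intro j _ hj
        rw [if_neg (fun h => hj h.1.symm), zero_mul]
      · intro h; exact absurd (mem_univ i) h
    constructor
    · intro h i _
      ext k
      rw [← h3, h k]; rfl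
    · intro h k
      ext i
      rw [h3, h i (mem_univ i)]; rfl
  simp only [h1, mul_sum]
  rw [sum_comm]
  apply sum_congr rfl
  intro p _
  have h4 : ∀ i, loc (ap A p i) (p i) =
      (-(if ap A p i + p i = 0 then (1 : ℤ) else 0)) + (if ap A p i = 0 then (1 : ℤ) else 0) := by
    intro i; unfold loc; ring
  simp only [h4]
  rw [Fintype.prod_add]
  apply sum_congr rfl
  intro S _
  rw [prod_neg, mul_assoc]
  congr 1
  rw [← prod_mul_prod_compl S]
  congr 1
  · apply prod_congr rfl
    intro i hi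
    rw [if_pos hi]
  · apply prod_congr rfl
    intro i hi
    rw [mem_compl] at hi
    rw [if_neg hi, add_zero]

/-- All good maps are constant. -/
def AllConst (A : Matrix ι ι (ZMod 2)) : Prop :=
  ∀ (m : ℕ) (p : ι → (Fin m → ZMod 2)), (∀ i, p i ≠ 0) →
    (∀ i, ap A p i = 0 ∨ ap A p i = p i) → ∀ i j, p i = p j

lemma loc_zero {m : ℕ} (y : Fin m → ZMod 2) : loc y 0 = 0 := by
  simp [loc]

lemma loc_ne {m : ℕ} (y x : Fin m → ZMod 2) (h : loc y x ≠ 0) : x ≠ 0 ∧ (y = 0 ∨ y = x) := by
  constructor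
  · rintro rfl
    exact h (loc_zero y)
  · by_contra hc
    push Not at hc
    apply h
    unfold loc
    rw [if_neg hc.1, if_neg]
    · ring
    · intro h1
      apply hc.2
      ext k
      have := congrFun h1 k
      rw [Pi.add_apply, Pi.zero_apply] at this
      exact CharTwo.add_eq_zero.mp this

lemma ap_const (A : Matrix ι ι (ZMod 2)) {m : ℕ} (c : Fin m → ZMod 2) (i : ι) :
    ap A (fun _ => c) i = (∑ j, A i j) • c := by
  simp [ap, sum_smul]

/-- Handshake. -/
lemma handshake {A : Matrix ι ι (ZMod 2)} (hA : A.IsSymm) (h0 : ∀ i, A i i = 0) :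
    ∑ i, ∑ j, A i j = 0 := by
  have := quad hA (fun _ => 1)
  simp only [dotProduct, mulVec, mul_one, one_mul, h0, sum_const_zero] at this
  exact this

/-- The sign character. -/
def sg (a : ZMod 2) : ℤ := if a = 0 then 1 else -1

lemma sg_add (a b : ZMod 2) : sg (a + b) = sg a * sg b := by
  revert a b; decide

lemma sg_sum {κ : Type*} (s : Finset κ) (f : κ → ZMod 2) : ∏ i ∈ s, sg (f i) = sg (∑ i ∈ s, f i) := by
  classical
  induction s using Finset.induction_on with
  | empty => simp [sg]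
  | insert a s ha ih => rw [prod_insert ha, sum_insert ha, sg_add, ih]

lemma loc_smul {m : ℕ} (c : Fin m → ZMod 2) (hc : c ≠ 0) (a : ZMod 2) : loc (a • c) c = sg a := by
  rcases zmod2_cases a with h | h
  · subst h
    simp [loc, sg, hc]
  · subst h
    have : c + c = 0 := by
      ext k
      exact CharTwo.add_self_eq_zero _
    simp [loc, sg, hc, this]

lemma signed_const [Nonempty ι] {A : Matrix ι ι (ZMod 2)} (hA : A.IsSymm) (h0 : ∀ i, A i i = 0)
    (hc : AllConst A) (m : ℕ) :
    ∑ p : ι → (Fin m → ZMod 2), ∏ i, loc (ap A p i) (p i) = 2 ^ m - 1 := by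
  classical
  have h1 : ∑ p : ι → (Fin m → ZMod 2), ∏ i, loc (ap A p i) (p i) =
      ∑ p ∈ (univ.erase (0 : Fin m → ZMod 2)).image (fun c => (fun _ : ι => c)),
        ∏ i, loc (ap A p i) (p i) := by
    symm
    apply sum_subset (subset_univ _)
    intro p _ hp
    by_contra hne
    rw [← ne_eq, prod_ne_zero_iff] at hne
    apply hp
    have hg := hc m p (fun i => (loc_ne _ _ (hne i (mem_univ i))).1)
      (fun i => (loc_ne _ _ (hne i (mem_univ i))).2)
    obtain ⟨i0⟩ := ‹Nonempty ι›
    rw [mem_image]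
    refine ⟨p i0, ?_, ?_⟩
    · rw [mem_erase]
      exact ⟨(loc_ne _ _ (hne i0 (mem_univ i0))).1, mem_univ _⟩
    · ext i k
      rw [hg i0 i]
  rw [h1, sum_image]
  · have h2 : ∀ c ∈ univ.erase (0 : Fin m → ZMod 2),
        ∏ i, loc (ap A (fun _ => c) i) c = (1 : ℤ) := by
      intro c hc0
      have hc0' := (mem_erase.mp hc0).1
      simp only [ap_const, loc_smul c hc0']
      rw [sg_sum, handshake hA h0]
      rfl
    rw [sum_congr rfl h2, sum_const, card_erase_of_mem (mem_univ _), card_univ]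
    simp [ZMod.card]
  · intro a _ b _ hab
    obtain ⟨i0⟩ := ‹Nonempty ι›
    exact congrFun hab i0

open Polynomial in
/-- The signed nullity polynomial when all good maps are constant. -/
theorem value_all [Nonempty ι] {A : Matrix ι ι (ZMod 2)} (hA : A.IsSymm) (h0 : ∀ i, A i i = 0)
    (hc : AllConst A) (y : ℤ) :
    ∑ S : Finset ι, (-1 : ℤ) ^ (#S) * y ^ nul (addD A S) = y - 1 := by
  classical
  let P : ℤ[X] := ∑ S : Finset ι, C ((-1 : ℤ) ^ (#S)) * X ^ nul (addD A S)
  have hev : ∀ y : ℤ, P.eval y = ∑ S : Finset ι, (-1 : ℤ) ^ (#S) * y ^ nul (addD A S) := by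
    intro y
    simp [P, eval_finsetSum]
  have hP : P = X - 1 := by
    apply Polynomial.eq_of_infinite_eval_eq
    apply Set.infinite_of_injective_forall_mem (f := fun m : ℕ => (2 : ℤ) ^ m)
    · intro a b hab
      have hab' : (2 : ℤ) ^ a = 2 ^ b := hab
      exact Nat.pow_right_injective (le_refl 2) (by exact_mod_cast hab')
    · intro m
      simp only [Set.mem_ofPred_eq]
      rw [hev, signed_count, signed_const hA h0 hc m]
      simp
  rw [← hev, hP]
  simp

/-- The value at -2 when all good maps are constant. -/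
lemma value_neg_two [Nonempty ι] {A : Matrix ι ι (ZMod 2)} (hA : A.IsSymm) (h0 : ∀ i, A i i = 0)
    (hc : AllConst A) : ∑ S : Finset ι, (-1 : ℤ) ^ (#S) * gg (addD A S) = -3 := by
  unfold gg
  rw [value_all hA h0 hc]
  norm_num

end Pool.Agent.HamWt
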