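import Pool.Agent.HamWt.Skein

set_option autoImplicit false
set_option linter.unusedSectionVars false

namespace Pool.Agent.HamWt

open Matrix Finset Module

variable {ι : Type*} [Fintype ι] [DecidableEq ι]

lemma iso_symm {M : Matrix ι ι (ZMod 2)} (hM : M.IsSymm) (S : Finset ι) : (iso M S).IsSymm := by
  ext i j
  simp only [iso, transpose_apply]
  by_cases h : i ∈ S ∨ j ∈ S
  · rw [if_pos h, if_pos h.symm]
    by_cases hij : i = j
    · simp [hij]
    · rw [if_neg hij, if_neg (Ne.symm hij)]
  · rw [if_neg h, if_neg (fun h' => h h'.symm)]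
    exact hM.apply i j

lemma addD_symm {M : Matrix ι ι (ZMod 2)} (hM : M.IsSymm) (S : Finset ι) :
    (addD M S).IsSymm := by
  ext i j
  simp only [addD, transpose_apply]
  rw [hM.apply i j]
  congr 1
  by_cases hij : i = j
  · subst hij; rfl
  · rw [if_neg (fun h => hij h.1.symm), if_neg (fun h => hij h.1)]

lemma iso_addD_comm (M : Matrix ι ι (ZMod 2)) (v : ι) (S : Finset ι) (hv : v ∉ S) :
    iso (addD M {v}) S = addD (iso M S) {v} := by
  ext i j
  simp only [iso, addD, mem_singleton]
  by_cases h : i ∈ S ∨ j ∈ S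
  · rw [if_pos h, if_pos h]
    have : ¬ (i = j ∧ i = v) := by
      rintro ⟨rfl, rfl⟩
      rcases h with h | h <;> exact hv h
    rw [if_neg this, add_zero]
  · rw [if_neg h, if_neg h]

lemma iso_insert (M : Matrix ι ι (ZMod 2)) (v : ι) (S : Finset ι) :
    iso M (insert v S) = iso (iso M S) {v} := by
  ext i j
  simp only [iso, mem_insert, mem_singleton]
  by_cases h : i = v ∨ j = v
  · rw [if_pos (by tauto), if_pos h]
  · rw [if_neg h]
    by_cases h' : i ∈ S ∨ j ∈ S
    · rw [if_pos (by tauto), if_pos h']
    · rw [if_neg (by tauto), if_neg h']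

lemma addD_insert (M : Matrix ι ι (ZMod 2)) (v : ι) (S : Finset ι) (hv : v ∉ S) :
    addD M (insert v S) = addD (addD M {v}) S := by
  ext i j
  simp only [addD, mem_insert, mem_singleton]
  by_cases h : i = j
  · subst h
    by_cases h1 : i = v
    · subst h1
      simp [hv]
    · simp [h1]
  · simp [h]

lemma expand (T : Finset ι) : ∀ M : Matrix ι ι (ZMod 2), M.IsSymm →
    ∑ S ∈ T.powerset, (-1 : ℤ) ^ (#S) * gg (addD M S) =
      ∑ U ∈ T.powerset, (2 : ℤ) ^ (#U) * gg (iso M (T \ U)) := by
  induction T using Finset.induction_on with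
  | empty =>
    intro M _
    simp only [powerset_empty, sum_singleton, card_empty, pow_zero, one_mul, sdiff_self]
    congr 1
    ext i j
    simp [addD, iso]
  | insert v T hv ih =>
    intro M hM
    rw [sum_powerset_insert hv, sum_powerset_insert hv, ih M hM]
    have h1 : ∑ S ∈ T.powerset, (-1 : ℤ) ^ (#(insert v S)) * gg (addD M (insert v S)) =
        - ∑ U ∈ T.powerset, (2 : ℤ) ^ (#U) * gg (addD (iso M (T \ U)) {v}) := by
      have h2 := ih (addD M {v}) (addD_symm hM _)
      have h3 : ∑ U ∈ T.powerset, (2 : ℤ) ^ (#U) * gg (addD (iso M (T \ U)) {v}) =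
          ∑ U ∈ T.powerset, (2 : ℤ) ^ (#U) * gg (iso (addD M {v}) (T \ U)) := by
        apply sum_congr rfl
        intro U hU
        rw [iso_addD_comm]
        intro h; exact hv (mem_sdiff.mp h).1
      rw [h3, ← h2, ← sum_neg_distrib]
      apply sum_congr rfl
      intro S hS
      have hvS : v ∉ S := fun h => hv ((mem_powerset.mp hS) h)
      rw [card_insert_of_notMem hvS, addD_insert M v S hvS]
      ring
    rw [h1, ← sub_eq_add_neg, ← sum_sub_distrib, ← sum_add_distrib]
    apply sum_congr rfl
    intro U hU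
    have hvU : v ∉ U := fun h => hv ((mem_powerset.mp hU) h)
    have e1 : insert v T \ U = insert v (T \ U) := by
      rw [insert_sdiff_of_notMem _ hvU]
    have e2 : insert v T \ insert v U = T \ U := by
      rw [insert_sdiff_insert, sdiff_insert_of_notMem hv]
    rw [e1, e2, card_insert_of_notMem hvU, iso_insert]
    have := skein (iso_symm hM (T \ U)) v
    have h4 : gg (addD (iso M (T \ U)) {v}) =
        - gg (iso M (T \ U)) - gg (iso (iso M (T \ U)) {v}) := by linarith
    rw [h4]
    ring

/-- The quadratic form of a symmetric matrix only sees the diagonal. -/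
lemma quad {M : Matrix ι ι (ZMod 2)} (hM : M.IsSymm) (x : ι → ZMod 2) :
    x ⬝ᵥ (M *ᵥ x) = ∑ i, M i i * x i := by
  have h0 : x ⬝ᵥ (M *ᵥ x) = ∑ p : ι × ι, x p.1 * M p.1 p.2 * x p.2 := by
    rw [Fintype.sum_prod_type]
    simp only [dotProduct, mulVec, mul_sum]
    apply sum_congr rfl; intro i _
    apply sum_congr rfl; intro j _
    ring
  have h1 : ∑ p : ι × ι, x p.1 * M p.1 p.2 * x p.2 =
      ∑ p ∈ univ.filter (fun p : ι × ι => p.1 = p.2), x p.1 * M p.1 p.2 * x p.2 +
      ∑ p ∈ univ.filter (fun p : ι × ι => ¬ p.1 = p.2), x p.1 * M p.1 p.2 * x p.2 :=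
    (sum_filter_add_sum_filter_not _ _ _).symm
  have h2 : ∑ p ∈ univ.filter (fun p : ι × ι => ¬ p.1 = p.2), x p.1 * M p.1 p.2 * x p.2 = 0 := by
    apply sum_involution (fun p _ => (p.2, p.1))
    · intro p _
      have : x p.2 * M p.2 p.1 * x p.1 = x p.1 * M p.1 p.2 * x p.2 := by
        rw [hM.apply p.1 p.2]; ring
      simp only
      rw [this]
      exact CharTwo.add_self_eq_zero _
    · intro p hp _ h
      rw [mem_filter] at hp
      exact hp.2 (by have := congrArg Prod.fst h; simpa using this.symm)
    · intro p hp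
      rw [mem_filter] at hp ⊢
      exact ⟨mem_univ _, fun h => hp.2 h.symm⟩
    · intro p _
      rfl
  have h3 : ∑ p ∈ univ.filter (fun p : ι × ι => p.1 = p.2), x p.1 * M p.1 p.2 * x p.2 =
      ∑ i, M i i * x i := by
    symm
    apply sum_bij (fun i _ => (i, i))
    · intro i _; simp
    · intro i _ j _ h; exact congrArg Prod.fst h
    · intro p hp
      rw [mem_filter] at hp
      exact ⟨p.1, mem_univ _, by ext; rfl; exact hp.2⟩
    · intro i _
      simp only
      rcases zmod2_cases (x i) with h | h <;> simp [h]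
  rw [h0, h1, h2, h3, add_zero]

lemma iso_mulVec_mem (M : Matrix ι ι (ZMod 2)) (S : Finset ι) (x : ι → ZMod 2) (i : ι)
    (hi : i ∈ S) : (iso M S *ᵥ x) i = x i := by
  simp only [mulVec, dotProduct, iso, hi, true_or, if_true]
  simp

/-- Parity of the nullity for an alternating matrix with some isolated vertices. -/
lemma parity {A : Matrix ι ι (ZMod 2)} (hA : A.IsSymm) (h0 : ∀ i, A i i = 0) (U : Finset ι) :
    (-1 : ℤ) ^ nul (iso A Uᶜ) = (-1) ^ (#U) := by
  induction U using Finset.induction_on with
  | empty =>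
    have : nul (iso A (∅ : Finset ι)ᶜ) = 0 := by
      unfold nul
      have : LinearMap.ker (iso A (∅ : Finset ι)ᶜ).mulVecLin = ⊥ := by
        rw [LinearMap.ker_eq_bot']
        intro x hx
        ext i
        rw [mulVecLin_apply] at hx
        rw [← iso_mulVec_mem A (∅ : Finset ι)ᶜ x i (by simp), hx]
      rw [this, finrank_bot]
    rw [this]
    simp
  | insert v U hv ih =>
    have e : Uᶜ = insert v (insert v U)ᶜ := by
      ext i
      simp only [mem_compl, mem_insert]
      by_cases h : i = v
      · subst h; simp [hv]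
      · simp [h]
    have hvi : v ∉ (insert v U)ᶜ := by simp
    rw [e, iso_insert] at ih
    set N := iso A (insert v U)ᶜ with hN
    have hNs : N.IsSymm := iso_symm hA _
    -- the middle case of the triple is impossible
    have hC : ∀ x, N *ᵥ x = Pi.single v 1 → x v = 0 := by
      intro x hx
      have h1 := quad hNs x
      rw [hx, dotProduct_single, mul_one] at h1
      rw [h1]
      apply sum_eq_zero
      intro i _
      by_cases hi : i ∈ (insert v U)ᶜ
      · have : x i = 0 := by
          rw [← iso_mulVec_mem A _ x i hi, ← hN, hx, Pi.single_eq_of_ne]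
          rintro rfl
          exact hvi hi
        rw [this, mul_zero]
      · have : N i i = 0 := by
          rw [hN, iso, if_neg (by tauto), h0]
        rw [this, zero_mul]
    have hCn := nul_addD_nosplit N v hC
    rw [card_insert_of_notMem hv, pow_succ, ← ih]
    by_cases hB : ∃ x, N *ᵥ x = 0 ∧ x v ≠ 0
    · have h1 := nul_of_split N v hB
      obtain ⟨d, h | h | h⟩ := triple hNs v
      · rw [h.1, h.2.2]; ring
      · omega
      · omega
    · push Not at hB
      have h1 := nul_of_nosplit N v hB
      obtain ⟨d, h | h | h⟩ := triple hNs v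
      · omega
      · omega
      · rw [h.1, h.2.2]; ring

end Pool.Agent.HamWt
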