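import Pool.Agent.HamWt.Count

set_option autoImplicit false
set_option linter.unusedSectionVars false

namespace Pool.Agent.HamWt

open Matrix Finset Module

variable {ι : Type*} [Fintype ι] [DecidableEq ι]

/-- Number of local solutions supported in U. -/
def kc (A : Matrix ι ι (ZMod 2)) (U : Finset ι) : ℕ :=
  #{x : ι → ZMod 2 | ∀ i, (i ∉ U → x i = 0) ∧ (i ∈ U → (A *ᵥ x) i = 0)}

lemma gg_iso {A : Matrix ι ι (ZMod 2)} (hA : A.IsSymm) (h0 : ∀ i, A i i = 0) (U : Finset ι) :
    gg (iso A Uᶜ) = (-1) ^ (#U) * (kc A U : ℤ) := by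
  have h1 : kc A U = 2 ^ nul (iso A Uᶜ) := by
    rw [← card_ker]
    unfold kc
    congr 1
    ext x
    rw [mem_filter, mem_filter]
    refine and_congr_right (fun _ => ?_)
    have key : (∀ i, i ∉ U → x i = 0) → ∀ i ∈ U, (iso A Uᶜ *ᵥ x) i = (A *ᵥ x) i := by
      intro h i hi
      simp only [mulVec, dotProduct]
      apply sum_congr rfl
      intro j _
      by_cases hj : j ∈ U
      · have : ¬ (i ∈ Uᶜ ∨ j ∈ Uᶜ) := by simp [hi, hj]
        simp only [iso]
        rw [if_neg this]
      · rw [h j hj, mul_zero, mul_zero]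
    constructor
    · intro h
      ext i
      by_cases hi : i ∈ U
      · rw [key (fun i => (h i).1) i hi, (h i).2 hi]; rfl
      · rw [iso_mulVec_mem A _ x i (by simpa using hi), (h i).1 hi]; rfl
    · intro h
      have h2 : ∀ i, i ∉ U → x i = 0 := by
        intro i hi
        rw [← iso_mulVec_mem A Uᶜ x i (by simpa using hi), h]; rfl
      intro i
      refine ⟨h2 i, fun hi => ?_⟩
      rw [← key h2 i hi, h]; rfl
  unfold gg
  rw [h1, ← parity hA h0 U]
  push_cast
  rw [← mul_pow]
  norm_num

lemma kc_empty (A : Matrix ι ι (ZMod 2)) : kc A ∅ = 1 := by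
  unfold kc
  rw [card_eq_one]
  refine ⟨0, ?_⟩
  ext x
  simp only [mem_filter, mem_univ, true_and, notMem_empty, not_false_eq_true, forall_true_left,
    IsEmpty.forall_iff, and_true, mem_singleton]
  constructor
  · intro h; ext i; exact h i
  · rintro rfl i; rfl

lemma kc_one {A : Matrix ι ι (ZMod 2)} (h0 : ∀ i, A i i = 0) (v : ι) : kc A {v} = 2 := by
  unfold kc
  rw [card_eq_two]
  refine ⟨0, Pi.single v 1, ?_, ?_⟩
  · intro h
    have := congrFun h v
    simp at this
  · ext x
    simp only [mem_filter, mem_univ, true_and, mem_singleton, mem_insert]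
    constructor
    · intro h
      rcases zmod2_cases (x v) with hv | hv
      · left
        ext i
        by_cases hi : i = v
        · rw [hi, hv]; rfl
        · rw [(h i).1 hi]; rfl
      · right
        ext i
        by_cases hi : i = v
        · rw [hi, hv, Pi.single_eq_same]
        · rw [(h i).1 hi, Pi.single_eq_of_ne hi]
    · rintro (rfl | rfl)
      · intro i; simp
      · intro i
        refine ⟨fun hi => Pi.single_eq_of_ne hi _, ?_⟩
        rintro rfl
        simp [h0]

lemma kc_two {A : Matrix ι ι (ZMod 2)} (hA : A.IsSymm) (h0 : ∀ i, A i i = 0) {u v : ι}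
    (huv : u ≠ v) : kc A {u, v} = if A u v = 1 then 1 else 4 := by
  classical
  -- restrict to the two coordinates
  have h1 : kc A {u, v} =
      #{y : ZMod 2 × ZMod 2 | A u v * y.2 = 0 ∧ A u v * y.1 = 0} := by
    unfold kc
    have hval : ∀ x : ι → ZMod 2, (∀ i, i ∉ ({u, v} : Finset ι) → x i = 0) → ∀ i,
        (A *ᵥ x) i = A i u * x u + A i v * x v := by
      intro x hx i
      simp only [mulVec, dotProduct]
      rw [← sum_subset (subset_univ {u, v}), sum_pair huv]
      intro j _ hj
      rw [hx j hj, mul_zero]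
    apply card_bij (fun x _ => (x u, x v))
    · intro x hx
      rw [mem_filter] at hx ⊢
      refine ⟨mem_univ _, ?_⟩
      have hz := fun i => (hx.2 i).1
      have hu := (hx.2 u).2 (by simp)
      have hv := (hx.2 v).2 (by simp)
      rw [hval x hz] at hu hv
      rw [h0, zero_mul, zero_add] at hu
      rw [h0, zero_mul, add_zero, hA.apply u v] at hv
      exact ⟨hu, hv⟩
    · intro x hx y hy h
      rw [mem_filter] at hx hy
      ext i
      by_cases hi : i ∈ ({u, v} : Finset ι)
      · rw [mem_insert, mem_singleton] at hi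
        rcases hi with rfl | rfl
        · exact congrArg Prod.fst h
        · exact congrArg Prod.snd h
      · rw [(hx.2 i).1 hi, (hy.2 i).1 hi]
    · rintro ⟨a, b⟩ hab
      rw [mem_filter] at hab
      let x : ι → ZMod 2 := fun i => if i = u then a else if i = v then b else 0
      have hxu : x u = a := by simp [x]
      have hxv : x v = b := by simp [x, huv.symm]
      have hx0 : ∀ i, i ∉ ({u, v} : Finset ι) → x i = 0 := by
        intro i hi
        rw [mem_insert, mem_singleton, not_or] at hi
        simp [x, hi.1, hi.2]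
      refine ⟨x, ?_, ?_⟩
      · rw [mem_filter]
        refine ⟨mem_univ _, fun i => ⟨hx0 i, fun hi => ?_⟩⟩
        rw [hval x hx0, hxu, hxv]
        rw [mem_insert, mem_singleton] at hi
        rcases hi with rfl | rfl
        · rw [h0, zero_mul, zero_add]; exact hab.2.1
        · rw [h0, zero_mul, add_zero, hA.apply]; exact hab.2.2
      · rw [hxu, hxv]
  rw [h1]
  rcases zmod2_cases (A u v) with h | h
  · rw [h]; decide
  · rw [h]; decide

lemma gg_three_even {A : Matrix ι ι (ZMod 2)} (hA : A.IsSymm) (h0 : ∀ i, A i i = 0)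
    (U : Finset ι) (hU : #U = 3) : (2 : ℤ) ∣ gg (iso A Uᶜ) := by
  have h1 := parity hA h0 U
  rw [hU] at h1
  unfold gg
  apply dvd_pow (by norm_num)
  intro h2
  rw [h2] at h1
  norm_num at h1

open Classical in
lemma mod16 {A : Matrix ι ι (ZMod 2)} (hA : A.IsSymm) (h0 : ∀ i, A i i = 0) :
    (16 : ℤ) ∣ (∑ S : Finset ι, (-1 : ℤ) ^ (#S) * gg (addD A S)) -
      (1 - 4 * (Fintype.card ι : ℤ) +
        4 * (#{U ∈ powersetCard 2 (univ : Finset ι) | ∃ a ∈ U, ∃ b ∈ U, A a b = 1} : ℤ)) := by
  classical
  have h1 := expand (univ : Finset ι) A hA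
  rw [powerset_univ] at h1
  rw [h1]
  have h2 : (1 - 4 * (Fintype.card ι : ℤ) +
        4 * (#{U ∈ powersetCard 2 (univ : Finset ι) | ∃ a ∈ U, ∃ b ∈ U, A a b = 1} : ℤ)) =
      ∑ U : Finset ι, ((if #U = 0 then (1 : ℤ) else 0) + (if #U = 1 then -4 else 0) +
        (if #U = 2 ∧ ∃ a ∈ U, ∃ b ∈ U, A a b = 1 then 4 else 0)) := by
    rw [sum_add_distrib, sum_add_distrib]
    have e1 : ∑ U : Finset ι, (if #U = 0 then (1 : ℤ) else 0) = 1 := by
      simp [card_eq_zero]
    have e2 : ∑ U : Finset ι, (if #U = 1 then (-4 : ℤ) else 0) = -4 * Fintype.card ι := by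
      rw [← sum_filter, sum_const]
      have : (univ.filter (fun U : Finset ι => #U = 1)) = powersetCard 1 univ := by
        ext U; simp [mem_powersetCard]
      rw [this, card_powersetCard, card_univ, Nat.choose_one_right, nsmul_eq_mul]
      ring
    have e3 : ∑ U : Finset ι, (if #U = 2 ∧ ∃ a ∈ U, ∃ b ∈ U, A a b = 1 then (4 : ℤ) else 0) =
        4 * (#{U ∈ powersetCard 2 (univ : Finset ι) | ∃ a ∈ U, ∃ b ∈ U, A a b = 1} : ℤ) := by
      rw [← sum_filter, sum_const, nsmul_eq_mul, mul_comm]
      congr 3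
      ext U; simp [mem_powersetCard]
    rw [e1, e2, e3]
    ring
  rw [h2, ← sum_sub_distrib]
  apply dvd_sum
  intro U _
  rw [← compl_eq_univ_sdiff]
  rcases Nat.lt_or_ge (#U) 4 with hlt | hge
  · interval_cases hU : #U
    · rw [card_eq_zero] at hU
      subst hU
      rw [gg_iso hA h0, kc_empty]
      simp
    · rw [card_eq_one] at hU
      obtain ⟨v, rfl⟩ := hU
      rw [gg_iso hA h0, kc_one h0]
      simp
    · rw [card_eq_two] at hU
      obtain ⟨u, v, huv, rfl⟩ := hU
      rw [gg_iso hA h0, kc_two hA h0 huv]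
      have hiff : (∃ a ∈ ({u, v} : Finset ι), ∃ b ∈ ({u, v} : Finset ι), A a b = 1) ↔
          A u v = 1 := by
        constructor
        · rintro ⟨a, ha, b, hb, hab⟩
          rw [mem_insert, mem_singleton] at ha hb
          rcases ha with rfl | rfl <;> rcases hb with rfl | rfl
          · rw [h0] at hab; exact absurd hab (by decide)
          · exact hab
          · rw [← hA.apply]; exact hab
          · rw [h0] at hab; exact absurd hab (by decide)
        · intro h
          exact ⟨u, by simp, v, by simp, h⟩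
      rw [card_pair huv]
      simp only [hiff]
      by_cases h : A u v = 1
      · simp [h]
      · simp [h]
    · have h3 := gg_three_even hA h0 U hU
      obtain ⟨k, hk⟩ := h3
      rw [hk]
      simp only [OfNat.ofNat_ne_zero, if_false, OfNat.ofNat_ne_one, Nat.reduceEqDiff, false_and]
      exact ⟨k, by ring⟩
  · have e0 : ¬ #U = 0 := by omega
    have e1 : ¬ #U = 1 := by omega
    have e2 : ¬ #U = 2 := by omega
    simp only [e0, e1, e2, if_false, false_and]
    obtain ⟨k, hk⟩ := Nat.exists_eq_add_of_le hge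
    rw [hk, pow_add]
    exact ⟨2 ^ k * gg (iso A Uᶜ), by ring⟩

open Classical in
/-- The cyclomatic number is divisible by four when all good maps are constant. -/
theorem four_dvd [Nonempty ι] {A : Matrix ι ι (ZMod 2)} (hA : A.IsSymm) (h0 : ∀ i, A i i = 0)
    (hc : AllConst A) :
    (4 : ℤ) ∣ (#{U ∈ powersetCard 2 (univ : Finset ι) | ∃ a ∈ U, ∃ b ∈ U, A a b = 1} : ℤ) -
      (Fintype.card ι : ℤ) + 1 := by
  have h1 := mod16 hA h0
  rw [value_neg_two hA h0 hc] at h1
  omega

end Pool.Agent.HamWt
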