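import Mathlib

set_option autoImplicit false
set_option linter.unusedSectionVars false

namespace Pool.Agent.HamWt

open Matrix Finset Module

variable {ι : Type*} [Fintype ι] [DecidableEq ι]

/-- The nullity of a square matrix over the field with two elements. -/
noncomputable def nul (M : Matrix ι ι (ZMod 2)) : ℕ :=
  finrank (ZMod 2) (LinearMap.ker M.mulVecLin)

/-- The value at -2. -/
noncomputable def gg (M : Matrix ι ι (ZMod 2)) : ℤ := (-2) ^ (nul M)

/-- Isolate the vertices in S: their rows and columns become those of the identity matrix. -/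
def iso (M : Matrix ι ι (ZMod 2)) (S : Finset ι) : Matrix ι ι (ZMod 2) :=
  fun i j => if i ∈ S ∨ j ∈ S then (if i = j then 1 else 0) else M i j

/-- Change the diagonal entries in S. -/
def addD (M : Matrix ι ι (ZMod 2)) (S : Finset ι) : Matrix ι ι (ZMod 2) :=
  fun i j => M i j + (if i = j ∧ i ∈ S then 1 else 0)

lemma zmod2_ne_zero {a : ZMod 2} (h : a ≠ 0) : a = 1 := by
  revert a; decide

lemma zmod2_cases (a : ZMod 2) : a = 0 ∨ a = 1 := by
  revert a; decide

lemma finrank_split (W : Submodule (ZMod 2) (ι → ZMod 2)) (l : (ι → ZMod 2) →ₗ[ZMod 2] ZMod 2)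
    (h : ∃ x ∈ W, l x ≠ 0) :
    finrank (ZMod 2) W = finrank (ZMod 2) (W ⊓ LinearMap.ker l : Submodule _ _) + 1 := by
  obtain ⟨x, hx, hlx⟩ := h
  have h1 := LinearMap.finrank_range_add_finrank_ker (l.domRestrict W)
  have hr : LinearMap.range (l.domRestrict W) = ⊤ := by
    rw [eq_top_iff]
    intro c _
    refine ⟨c • ⟨x, hx⟩, ?_⟩
    simp [LinearMap.domRestrict_apply, zmod2_ne_zero hlx]
  have hk : finrank (ZMod 2) (LinearMap.ker (l.domRestrict W)) =
      finrank (ZMod 2) (W ⊓ LinearMap.ker l : Submodule _ _) := by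
    have : (W ⊓ LinearMap.ker l : Submodule _ _) =
        (LinearMap.ker (l.domRestrict W)).map W.subtype := by
      ext y
      simp only [Submodule.mem_inf, LinearMap.mem_ker, Submodule.mem_map,
        LinearMap.domRestrict_apply, Submodule.coe_subtype, Subtype.exists, exists_and_right,
        exists_eq_right]
      constructor
      · rintro ⟨a, b⟩
        exact ⟨a, b⟩
      · rintro ⟨a, b⟩
        exact ⟨a, b⟩
    rw [this]
    exact (LinearEquiv.finrank_eq (Submodule.equivMapOfInjective _ W.injective_subtype _))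
  rw [hr, hk, finrank_top] at h1
  simp at h1
  omega

lemma finrank_nosplit (W : Submodule (ZMod 2) (ι → ZMod 2))
    (l : (ι → ZMod 2) →ₗ[ZMod 2] ZMod 2) (h : ∀ x ∈ W, l x = 0) :
    (W ⊓ LinearMap.ker l : Submodule _ _) = W := by
  rw [inf_eq_left]
  intro x hx
  exact h x hx

/-- The common part. -/
def kk (M : Matrix ι ι (ZMod 2)) (v : ι) : Submodule (ZMod 2) (ι → ZMod 2) :=
  LinearMap.ker M.mulVecLin ⊓ LinearMap.ker (LinearMap.proj v)

lemma mem_kk {M : Matrix ι ι (ZMod 2)} {v : ι} {x : ι → ZMod 2} :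
    x ∈ kk M v ↔ M *ᵥ x = 0 ∧ x v = 0 := by
  simp [kk]

lemma addD_mulVec (M : Matrix ι ι (ZMod 2)) (v : ι) (x : ι → ZMod 2) :
    (addD M {v}) *ᵥ x = M *ᵥ x + Pi.single v (x v) := by
  ext i
  simp only [mulVec, dotProduct, addD, Pi.add_apply, add_mul, Finset.sum_add_distrib]
  congr 1
  by_cases hi : i = v
  · subst hi
    simp
  · simp [hi]

lemma iso_mulVec (M : Matrix ι ι (ZMod 2)) (v : ι) (x : ι → ZMod 2) :
    (iso M {v}) *ᵥ x = fun i => if i = v then x v else (M *ᵥ x) i - M i v * x v := by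
  ext i
  simp only [mulVec, dotProduct, iso, mem_singleton]
  by_cases hi : i = v
  · subst hi
    simp
  · simp only [hi, false_or, if_false]
    rw [eq_sub_iff_add_eq, ← Finset.sum_erase_add _ _ (mem_univ v),
      ← Finset.sum_erase_add (s := univ) (a := v) (fun j => M i j * x j) (mem_univ v)]
    simp only [if_true, hi, if_false, zero_mul, add_zero]
    congr 1
    apply Finset.sum_congr rfl
    intro j hj
    rw [if_neg (ne_of_mem_erase hj)]

lemma symm_dot {M : Matrix ι ι (ZMod 2)} (hM : M.IsSymm) (x y : ι → ZMod 2) :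
    x ⬝ᵥ (M *ᵥ y) = (M *ᵥ x) ⬝ᵥ y := by
  rw [Matrix.dotProduct_mulVec, ← Matrix.mulVec_transpose, hM]

lemma exists_of_ker {M : Matrix ι ι (ZMod 2)} (hM : M.IsSymm) (v : ι)
    (h : ∀ z, M *ᵥ z = 0 → z v = 0) : ∃ x, M *ᵥ x = Pi.single v 1 := by
  have h1 : (LinearMap.proj v : (ι → ZMod 2) →ₗ[ZMod 2] ZMod 2) ∈
      (LinearMap.ker M.mulVecLin).dualAnnihilator := by
    rw [Submodule.mem_dualAnnihilator]
    intro w hw
    exact h w hw
  rw [← LinearMap.range_dualMap_eq_dualAnnihilator_ker] at h1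
  obtain ⟨l, hl⟩ := h1
  refine ⟨fun i => l (Pi.single i 1), ?_⟩
  have key : ∀ y : ι → ZMod 2, l y = (fun i => l (Pi.single i 1)) ⬝ᵥ y := by
    intro y
    have h0 : y = ∑ i, y i • (Pi.single i 1 : ι → ZMod 2) := by
      ext j
      rw [Finset.sum_apply, Finset.sum_eq_single j]
      · simp
      · intro b _ hb
        simp [Ne.symm hb]
      · intro h; exact absurd (mem_univ j) h
    conv_lhs => rw [h0]
    rw [map_sum]
    simp only [dotProduct]
    apply Finset.sum_congr rfl
    intro i _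
    rw [map_smul, smul_eq_mul, mul_comm]
  have h2 : ∀ x : ι → ZMod 2, (M *ᵥ (fun i => l (Pi.single i 1))) ⬝ᵥ x = x v := by
    intro x
    rw [← symm_dot hM, ← key]
    have := congrArg (fun f => f x) hl
    simpa [LinearMap.dualMap_apply] using this
  ext i
  have := h2 (Pi.single i 1)
  simp only [dotProduct_single, mul_one] at this
  rw [this]
  by_cases hi : i = v
  · subst hi; simp
  · rw [Pi.single_eq_of_ne hi, Pi.single_eq_of_ne (Ne.symm hi)]

lemma nul_of_split (M : Matrix ι ι (ZMod 2)) (v : ι) (h : ∃ x, M *ᵥ x = 0 ∧ x v ≠ 0) :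
    nul M = finrank (ZMod 2) (kk M v) + 1 := by
  apply finrank_split
  obtain ⟨x, h1, h2⟩ := h
  exact ⟨x, by simpa using h1, by simpa using h2⟩

lemma nul_of_nosplit (M : Matrix ι ι (ZMod 2)) (v : ι) (h : ∀ x, M *ᵥ x = 0 → x v = 0) :
    nul M = finrank (ZMod 2) (kk M v) := by
  unfold nul kk
  rw [finrank_nosplit]
  intro x hx
  exact h x (by simpa using hx)

lemma kk_addD (M : Matrix ι ι (ZMod 2)) (v : ι) : kk (addD M {v}) v = kk M v := by
  ext x
  rw [mem_kk, mem_kk, addD_mulVec]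
  constructor
  · rintro ⟨h1, h2⟩
    refine ⟨?_, h2⟩
    simpa [h2] using h1
  · rintro ⟨h1, h2⟩
    refine ⟨?_, h2⟩
    simp [h1, h2]

lemma ker_iso (M : Matrix ι ι (ZMod 2)) (v : ι) (x : ι → ZMod 2) :
    (iso M {v}) *ᵥ x = 0 ↔ x v = 0 ∧ ∀ i, i ≠ v → (M *ᵥ x) i = 0 := by
  rw [iso_mulVec]
  constructor
  · intro h
    have hv : x v = 0 := by
      have := congrFun h v
      simpa using this
    refine ⟨hv, ?_⟩
    intro i hi
    have := congrFun h i
    simpa [hi, hv] using this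
  · rintro ⟨hv, h⟩
    ext i
    by_cases hi : i = v
    · simp [hi, hv]
    · simp [hi, hv, h i hi]

lemma nul_iso_split (M : Matrix ι ι (ZMod 2)) (v : ι)
    (h : ∃ x, M *ᵥ x = Pi.single v 1 ∧ x v = 0) :
    nul (iso M {v}) = finrank (ZMod 2) (kk M v) + 1 := by
  obtain ⟨x, hx, hv⟩ := h
  unfold nul
  rw [finrank_split _ ((LinearMap.proj v).comp M.mulVecLin)]
  · have hE : (LinearMap.ker (iso M {v}).mulVecLin ⊓
        LinearMap.ker ((LinearMap.proj v).comp M.mulVecLin) : Submodule _ _) = kk M v := ?_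
    · rw [hE]
    ext y
    simp only [Submodule.mem_inf, LinearMap.mem_ker, mulVecLin_apply, LinearMap.comp_apply,
      LinearMap.proj_apply, ker_iso]
    rw [mem_kk]
    constructor
    · rintro ⟨⟨h1, h2⟩, h3⟩
      refine ⟨?_, h1⟩
      ext i
      by_cases hi : i = v
      · rw [hi]; exact h3
      · exact h2 i hi
    · rintro ⟨h1, h2⟩
      refine ⟨⟨h2, ?_⟩, ?_⟩
      · intro i _
        rw [h1]; rfl
      · rw [h1]; rfl
  · refine ⟨x, ?_, ?_⟩
    · rw [LinearMap.mem_ker, mulVecLin_apply, ker_iso]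
      refine ⟨hv, ?_⟩
      intro i hi
      rw [hx, Pi.single_eq_of_ne hi]
    · simp [hx]

lemma nul_iso_nosplit (M : Matrix ι ι (ZMod 2)) (v : ι)
    (h : ∀ x, M *ᵥ x = Pi.single v 1 → x v ≠ 0) :
    nul (iso M {v}) = finrank (ZMod 2) (kk M v) := by
  unfold nul
  have : LinearMap.ker (iso M {v}).mulVecLin = kk M v := by
    ext y
    rw [LinearMap.mem_ker, mulVecLin_apply, ker_iso, mem_kk]
    constructor
    · rintro ⟨h1, h2⟩
      refine ⟨?_, h1⟩
      rcases zmod2_cases ((M *ᵥ y) v) with h3 | h3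
      · ext i
        by_cases hi : i = v
        · rw [hi]; exact h3
        · exact h2 i hi
      · exfalso
        apply h y _ h1
        ext i
        by_cases hi : i = v
        · rw [hi, Pi.single_eq_same]; exact h3
        · rw [Pi.single_eq_of_ne hi]; exact h2 i hi
    · rintro ⟨h1, h2⟩
      refine ⟨h2, ?_⟩
      intro i _
      rw [h1]; rfl
  rw [this]

lemma nul_addD_split (M : Matrix ι ι (ZMod 2)) (v : ι)
    (h : ∃ x, M *ᵥ x = Pi.single v 1 ∧ x v = 1) :
    nul (addD M {v}) = finrank (ZMod 2) (kk M v) + 1 := by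
  obtain ⟨x, hx, hv⟩ := h
  rw [nul_of_split _ v, kk_addD]
  refine ⟨x, ?_, ?_⟩
  · rw [addD_mulVec, hx, hv, ← two_smul (ZMod 2), show (2 : ZMod 2) = 0 from rfl, zero_smul]
  · rw [hv]; exact one_ne_zero

lemma nul_addD_nosplit (M : Matrix ι ι (ZMod 2)) (v : ι)
    (h : ∀ x, M *ᵥ x = Pi.single v 1 → x v = 0) :
    nul (addD M {v}) = finrank (ZMod 2) (kk M v) := by
  rw [nul_of_nosplit _ v, kk_addD]
  intro x hx
  rw [addD_mulVec] at hx
  rcases zmod2_cases (x v) with h1 | h1
  · exact h1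
  · apply h
    rw [h1] at hx
    ext i
    have h2 := congrFun hx i
    rw [Pi.add_apply, Pi.zero_apply] at h2
    exact CharTwo.add_eq_zero.mp h2

/-- Exactly one of the three local changes raises the nullity. -/
lemma triple {M : Matrix ι ι (ZMod 2)} (hM : M.IsSymm) (v : ι) :
    ∃ d : ℕ, (nul M = d + 1 ∧ nul (addD M {v}) = d ∧ nul (iso M {v}) = d) ∨
      (nul M = d ∧ nul (addD M {v}) = d + 1 ∧ nul (iso M {v}) = d) ∨
      (nul M = d ∧ nul (addD M {v}) = d ∧ nul (iso M {v}) = d + 1) := by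
  refine ⟨finrank (ZMod 2) (kk M v), ?_⟩
  by_cases hB : ∃ x, M *ᵥ x = 0 ∧ x v ≠ 0
  · left
    obtain ⟨x, hx, hxv⟩ := hB
    have hno : ∀ y, M *ᵥ y ≠ Pi.single v 1 := by
      intro y hy
      have h1 := symm_dot hM x y
      rw [hy, hx, zero_dotProduct, dotProduct_single, mul_one] at h1
      exact hxv h1
    refine ⟨nul_of_split M v ⟨x, hx, hxv⟩, nul_addD_nosplit M v ?_, nul_iso_nosplit M v ?_⟩
    · intro y hy; exact absurd hy (hno y)
    · intro y hy; exact absurd hy (hno y)
  · push Not at hB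
    right
    obtain ⟨x, hx⟩ := exists_of_ker hM v hB
    have hu : ∀ y, M *ᵥ y = Pi.single v 1 → y v = x v := by
      intro y hy
      have h1 : M *ᵥ (y - x) = 0 := by rw [mulVec_sub, hx, hy, sub_self]
      have := hB _ h1
      rw [Pi.sub_apply, sub_eq_zero] at this
      exact this
    rcases zmod2_cases (x v) with h1 | h1
    · right
      refine ⟨nul_of_nosplit M v hB, nul_addD_nosplit M v ?_, nul_iso_split M v ⟨x, hx, h1⟩⟩
      intro y hy; rw [hu y hy, h1]
    · left
      refine ⟨nul_of_nosplit M v hB, nul_addD_split M v ⟨x, hx, h1⟩, nul_iso_nosplit M v ?_⟩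
      intro y hy; rw [hu y hy, h1]; exact one_ne_zero

/-- The skein relation at -2. -/
lemma skein {M : Matrix ι ι (ZMod 2)} (hM : M.IsSymm) (v : ι) :
    gg M + gg (addD M {v}) + gg (iso M {v}) = 0 := by
  obtain ⟨d, h | h | h⟩ := triple hM v <;> obtain ⟨h1, h2, h3⟩ := h <;>
    simp only [gg, h1, h2, h3, pow_succ] <;> ring

end Pool.Agent.HamWt
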